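import Pool.Agent.H703R3.QS.PowMom

/-!
# The level one weight of the acceptance probability
-/

set_option autoImplicit false
set_option linter.unusedSectionVars false

namespace Pool.Agent.H703R3.QS

open Finset Pool.Agent.H722R2.AA Pool.Agent.H746R2.AA Pool.Agent.H703R2.AA Pool.Agent.H703R2.AA.Pr
  Pool.Agent.H703R2.AB Pool.Agent.H703R2.AC Pool.Agent.H703R3.QP

variable {κ ι W : Type*} [Fintype κ] [DecidableEq κ] [Fintype ι] [DecidableEq ι] [Fintype W]
variable (P : Pr κ ι W)

/-- The norm of a combination of the differences of a step. -/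
lemma S_comb_le (T s : ℕ) (hs : s < T) (c : κ → ℝ) (x : κ → ℤˣ) :
    S T (fun h => nsq (∑ j, c j • P.z s j h x)) ≤ ∑ j, c j ^ 2 * pk P s j (fl j x) := by
  have h1 : S T (fun h => nsq (∑ j, c j • P.z s j h x))
      ≤ S (s + 1) (fun h => nsq (∑ j, c j • P.z s j h x)) := by
    refine S_peel (s + 1) T hs _ fun a ha => ?_
    have e : ∀ w, ∑ j, c j • P.z s j (w :: a) x = mv (P.Q a w x) (∑ j, c j • P.z s j a x) := by
      intro w
      rw [mv_sum]
      refine Finset.sum_congr rfl fun j _ => ?_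
      rw [P.z_cons s j a w x (by omega), mv_smul]
    simp_rw [e]
    exact (P.iso a x _).le
  refine h1.trans (le_of_eq ?_)
  change S s (fun h => ∑ w, nsq (∑ j, c j • P.z s j (w :: h) x)) = _
  have e2 : ∀ h : List W, h.length = s → ∑ w, nsq (∑ j, c j • P.z s j (w :: h) x)
      = ∑ j, c j ^ 2 * qk P h j (fl j x) := by
    intro h hh
    have h3 := sum_nsq_sum P h (fun k : Option κ => Option.elim k 0 (fun j => c j • P.A h (fl j x)))
    simp_rw [Fintype.sum_option] at h3
    simp only [Option.elim, mv_zero, zero_add, nsq_zero, Finset.sum_const_zero] at h3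
    have e4 : ∀ w, ∑ j, c j • P.z s j (w :: h) x
        = ∑ j, mv (P.a h w (some j)) (c j • P.A h (fl j x)) := by
      intro w
      refine Finset.sum_congr rfl fun j _ => ?_
      rw [P.z_top s j h w x hh, mv_smul]
    simp_rw [e4]
    rw [h3]
    refine Finset.sum_congr rfl fun j _ => ?_
    unfold qk
    rw [Finset.mul_sum]
    refine Finset.sum_congr rfl fun w _ => ?_
    rw [mv_smul, nsq_smul]
  rw [S_congr' s e2, S_sum]
  refine Finset.sum_congr rfl fun j _ => ?_
  rw [S_mul_left]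
  rfl

lemma D_out (T : ℕ) (g : List W → ℝ) (hg0 : ∀ a, 0 ≤ g a) (j : κ) (x : κ → ℤˣ) :
    D (P.out T g) j x
      = S T (fun h => g h * (2 * dot (zt P T j h x) (Pool.Agent.H703R2.AC.Ab P j h x))) := by
  rw [← tk_bg P g hg0 T ()]
  rw [D_tk]
  refine S_congr' T fun h _ => ?_
  simp only [Finset.univ_unique, Finset.sum_singleton]
  rw [mv_bg, mv_bg, dot_smul_left, dot_smul_right]
  have := Real.mul_self_sqrt (hg0 h)
  linear_combination (2 * dot (zt P T j h x) (Pool.Agent.H703R2.AC.Ab P j h x)) * this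

/-- The contribution of a step to a derivative. -/
noncomputable def ph (T : ℕ) (g : List W → ℝ) (s : ℕ) (j : κ) (x : κ → ℤˣ) : ℝ :=
  S T (fun h => g h * dot (P.z s j h x) (P.A h x))

lemma D_out_eq (T : ℕ) (g : List W → ℝ) (hg0 : ∀ a, 0 ≤ g a) (j : κ) (x : κ → ℤˣ) :
    D (P.out T g) j x = ∑ s ∈ Finset.range T, ph P T g s j x
      + ∑ s ∈ Finset.range T, ph P T g s j (fl j x) := by
  rw [D_out P T g hg0]
  unfold ph
  rw [← S_sum, ← S_sum, ← S_add]
  refine S_congr' T fun h hh => ?_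
  rw [← Finset.mul_sum, ← Finset.mul_sum, ← dot_sum_left, ← dot_sum_left]
  change g h * (2 * dot (zt P T j h x) (Pool.Agent.H703R2.AC.Ab P j h x))
    = g h * dot (zt P T j h x) (P.A h x) + g h * dot (zt P T j h (fl j x)) (P.A h (fl j x))
  rw [zt_fl P T j h x hh.le]
  unfold Pool.Agent.H703R2.AC.Ab
  rw [dot_smul_right, dot_add_right]
  ring

lemma fl_piecewise (L : Finset κ) (j : κ) (hj : j ∉ L) (z x : κ → ℤˣ) :
    fl j (L.piecewise z x) = L.piecewise z (fl j x) := by
  unfold fl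
  funext i
  by_cases hi : i = j
  · subst hi
    simp [hj]
  · by_cases hiL : i ∈ L <;> simp [hi, hiL]

/-- The coefficients. -/
noncomputable def cj (T : ℕ) (g : List W → ℝ) (L : Finset κ) (z : κ → ℤˣ) (s : ℕ) (j : κ) : ℝ :=
  if j ∈ L then 0 else Ex (fun x => ph P T g s j (L.piecewise z x))

lemma G1_rs_mem (F : (κ → ℤˣ) → ℝ) (L : Finset κ) (z : κ → ℤˣ) (j : κ) (hj : j ∈ L) :
    G1 (rs F L z) j = 0 := by
  rw [← Ex_D_eq_G1]
  have : ∀ x, D (rs F L z) j x = 0 := by
    intro x
    unfold D rs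
    have e : ∀ s : ℤˣ, L.piecewise z (Function.update x j s) = L.piecewise z x := by
      intro s
      funext i
      by_cases hi : i ∈ L
      · simp [hi]
      · have : i ≠ j := fun h => hi (h ▸ hj)
        simp [hi, this]
    rw [e, e, sub_self, zero_div]
  rw [Ex_congr this, Ex_const]

lemma G1_out (T : ℕ) (g : List W → ℝ) (hg0 : ∀ a, 0 ≤ g a) (L : Finset κ) (z : κ → ℤˣ) (j : κ) :
    G1 (rs (P.out T g) L z) j = 2 * ∑ s ∈ Finset.range T, cj P T g L z s j := by
  by_cases hj : j ∈ L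
  · rw [G1_rs_mem _ L z j hj]
    unfold cj
    simp [hj]
  · unfold cj
    simp only [hj, if_false]
    have h1 : G1 (rs (P.out T g) L z) j = Ex (fun x => D (P.out T g) j (L.piecewise z x)) :=
      G1_pw L j hj (P.out T g) z
    rw [h1]
    simp_rw [D_out_eq P T g hg0]
    rw [Ex_add, Ex_sum, Ex_sum, two_mul]
    congr 1
    refine Finset.sum_congr rfl fun s _ => ?_
    simp_rw [fl_piecewise L j hj]
    exact Ex_fl j (fun x => ph P T g s j (L.piecewise z x))

lemma cj_sq_le (T : ℕ) (g : List W → ℝ) (hg0 : ∀ a, 0 ≤ g a) (hg1 : ∀ a, g a ≤ 1)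
    (L : Finset κ) (z : κ → ℤˣ) (s : ℕ) (hs : s < T) (μ : ℝ) (hμ : 0 < μ)
    (hq : ∀ j, pq P L z s j ≤ μ) : ∑ j, cj P T g L z s j ^ 2 ≤ μ := by
  set c : κ → ℝ := cj P T g L z s with hc
  have e1 : ∀ j, c j ^ 2 = Ex (fun x => c j * ph P T g s j (L.piecewise z x)) := by
    intro j
    rw [Ex_mul_left]
    by_cases hj : j ∈ L
    · have : c j = 0 := by rw [hc]; unfold cj; simp [hj]
      rw [this]; ring
    · have : c j = Ex (fun x => ph P T g s j (L.piecewise z x)) := by rw [hc]; unfold cj; simp [hj]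
      rw [← this]; ring
  have e2 : ∑ j, c j ^ 2 = Ex (fun x => S T (fun h => g h
      * dot (∑ j, c j • P.z s j h (L.piecewise z x)) (P.A h (L.piecewise z x)))) := by
    simp_rw [e1]
    rw [← Ex_sum]
    refine Ex_congr fun x => ?_
    unfold ph
    simp_rw [← S_mul_left]
    rw [← S_sum]
    refine S_congr' T fun h _ => ?_
    rw [dot_sum_left, Finset.mul_sum]
    refine Finset.sum_congr rfl fun j _ => ?_
    rw [dot_smul_left]
    ring
  have h3 : Ex (fun x => S T (fun h => g h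
      * dot (∑ j, c j • P.z s j h (L.piecewise z x)) (P.A h (L.piecewise z x))))
      ≤ Ex (fun x => 1 / (2 * μ) * (∑ j, c j ^ 2 * pk P s j (fl j (L.piecewise z x))) + μ / 2) := by
    refine Ex_mono fun x => ?_
    set y := L.piecewise z x with hy
    have h4 : S T (fun h => g h * dot (∑ j, c j • P.z s j h y) (P.A h y))
        ≤ S T (fun h => 1 / (2 * μ) * nsq (∑ j, c j • P.z s j h y) + μ / 2 * nsq (P.A h y)) := by
      refine S_mono T fun h => ?_
      have h5 := abs_dot_le (∑ j, c j • P.z s j h y) (P.A h y) (1 / μ) (by positivity)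
      have h6 : g h * dot (∑ j, c j • P.z s j h y) (P.A h y)
          ≤ |dot (∑ j, c j • P.z s j h y) (P.A h y)| :=
        (mul_le_mul_of_nonneg_left (le_abs_self _) (hg0 h)).trans
          (mul_le_of_le_one_left (abs_nonneg _) (hg1 h))
      refine h6.trans (h5.trans (le_of_eq ?_))
      field_simp
    refine h4.trans ?_
    rw [S_add, S_mul_left, S_mul_left, P.S_nsq, mul_one]
    have h7 := S_comb_le P T s hs c y
    have h8 := mul_le_mul_of_nonneg_left h7 (by positivity : 0 ≤ 1 / (2 * μ))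
    linarith
  rw [Ex_add, Ex_mul_left, Ex_const, Ex_sum] at h3
  have h9 : ∑ j, Ex (fun x => c j ^ 2 * pk P s j (fl j (L.piecewise z x))) ≤ μ * ∑ j, c j ^ 2 := by
    rw [Finset.mul_sum]
    refine Finset.sum_le_sum fun j _ => ?_
    rw [Ex_mul_left]
    by_cases hj : j ∈ L
    · have : c j = 0 := by rw [hc]; unfold cj; simp [hj]
      rw [this]; simp
    · simp_rw [fl_piecewise L j hj]
      have e5 : Ex (fun x => pk P s j (L.piecewise z (fl j x))) = pq P L z s j := by
        rw [Ex_fl j (fun x => pk P s j (L.piecewise z x)), ← Ex_qf]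
        rfl
      rw [e5, mul_comm]
      exact mul_le_mul_of_nonneg_right (hq j) (sq_nonneg _)
  rw [← e2] at h3
  have h10 := mul_le_mul_of_nonneg_left h9 (by positivity : 0 ≤ 1 / (2 * μ))
  have e6 : 1 / (2 * μ) * (μ * ∑ j, c j ^ 2) = (∑ j, c j ^ 2) / 2 := by
    field_simp
  rw [e6] at h10
  linarith

/-- The level one weight of the acceptance probability of a restricted algorithm. -/
theorem bessel (T : ℕ) (g : List W → ℝ) (hg0 : ∀ a, 0 ≤ g a) (hg1 : ∀ a, g a ≤ 1)
    (L : Finset κ) (z : κ → ℤˣ) (μ : ℝ) (hμ : 0 < μ) (hq : ∀ s < T, ∀ j, pq P L z s j ≤ μ) :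
    ∑ j, G1 (rs (P.out T g) L z) j ^ 2 ≤ 4 * (T : ℝ) ^ 2 * μ := by
  have h1 : ∀ j, G1 (rs (P.out T g) L z) j ^ 2
      ≤ 4 * T * ∑ s ∈ Finset.range T, cj P T g L z s j ^ 2 := by
    intro j
    rw [G1_out P T g hg0, mul_pow]
    have := sq_sum_le_card_mul_sum_sq (s := Finset.range T) (f := fun s => cj P T g L z s j)
    rw [Finset.card_range] at this
    linarith
  refine (Finset.sum_le_sum fun j _ => h1 j).trans ?_
  rw [← Finset.mul_sum, Finset.sum_comm]
  have h2 : ∑ s ∈ Finset.range T, ∑ j, cj P T g L z s j ^ 2 ≤ ∑ _s ∈ Finset.range T, μ :=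
    Finset.sum_le_sum fun s hs => cj_sq_le P T g hg0 hg1 L z s (Finset.mem_range.1 hs) μ hμ
      (hq s (Finset.mem_range.1 hs))
  rw [Finset.sum_const, Finset.card_range, nsmul_eq_mul] at h2
  have h3 := mul_le_mul_of_nonneg_left h2 (by positivity : (0 : ℝ) ≤ 4 * T)
  refine h3.trans (le_of_eq ?_)
  ring

end Pool.Agent.H703R3.QS
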