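import Pool.Agent.H703R3.QS.Stab

/-!
# Total influences
-/

set_option autoImplicit false
set_option linter.unusedSectionVars false

namespace Pool.Agent.H703R3.QS

open Finset Pool.Agent.H722R2.AA Pool.Agent.H746R2.AA Pool.Agent.H703R2.AA Pool.Agent.H703R2.AA.Pr
  Pool.Agent.H703R2.AB Pool.Agent.H703R2.AC Pool.Agent.H703R3.QP

variable {κ : Type*} [Fintype κ] [DecidableEq κ]

/-- The total influence. -/
noncomputable def TI (F : (κ → ℤˣ) → ℝ) : ℝ := ∑ l, Inf F l

lemma TI_nonneg (F : (κ → ℤˣ) → ℝ) : 0 ≤ TI F := Finset.sum_nonneg fun l _ => Inf_nonneg F l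

lemma Inf_fr_self (F : (κ → ℤˣ) → ℝ) (k : κ) (s : ℤˣ) : Inf (fr k s F) k = 0 := by
  unfold Inf
  have : ∀ x, D (fr k s F) k x ^ 2 = 0 := by
    intro x
    unfold D fr
    rw [Function.update_idem, Function.update_idem, sub_self]
    norm_num
  rw [Ex_congr this, Ex_const]

lemma Inf_fr_ne (F : (κ → ℤˣ) → ℝ) (k l : κ) (h : l ≠ k) :
    Inf (fr k 1 F) l + Inf (fr k (-1) F) l = 2 * Inf F l := by
  have e : ∀ s : ℤˣ, Inf (fr k s F) l = Ex (fr k s (fun x => D F l x ^ 2)) := by
    intro s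
    unfold Inf
    refine Ex_congr fun x => ?_
    unfold D fr
    rw [Function.update_comm h, Function.update_comm h]
  rw [e, e]
  unfold Inf
  rw [Ex_split k (fun x => D F l x ^ 2)]
  ring

lemma TI_res (F : (κ → ℤˣ) → ℝ) (k : κ) :
    TI (fr k 1 F) + TI (fr k (-1) F) = 2 * (TI F - Inf F k) := by
  unfold TI
  rw [← Finset.sum_add_distrib, ← Finset.add_sum_erase _ _ (Finset.mem_univ k), Inf_fr_self,
    Inf_fr_self, ← Finset.add_sum_erase Finset.univ (fun l => Inf F l) (Finset.mem_univ k),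
    add_sub_cancel_left, Finset.mul_sum, add_zero, zero_add]
  exact Finset.sum_congr rfl fun l hl => Inf_fr_ne F k l (Finset.ne_of_mem_erase hl)

/-- The total influence of a low degree function. -/
lemma TI_le (d : ℕ) (F : (κ → ℤˣ) → ℝ) (hF : Deg d F) : TI F ≤ d * Cov F F := by
  unfold TI
  simp_rw [Inf_eq]
  rw [Finset.sum_comm, Cov_eq_Cr, Cr_fourier, ← Finset.add_sum_erase _ _ (Finset.mem_univ (∅ : Finset κ))]
  have h0 : ∑ l : κ, (if l ∈ (∅ : Finset κ) then fc F ∅ ^ 2 else 0) = 0 := by simp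
  rw [h0, zero_add, Finset.mul_sum]
  refine Finset.sum_le_sum fun S _ => ?_
  rw [← Finset.sum_filter, Finset.sum_const, nsmul_eq_mul, one_pow, one_mul, ← sq]
  rcases le_or_gt S.card d with h | h
  · refine mul_le_mul_of_nonneg_right ?_ (sq_nonneg _)
    have : (Finset.univ.filter (fun l => l ∈ S)).card = S.card := by simp
    rw [this]; exact_mod_cast h
  · rw [hF S h]; simp

end Pool.Agent.H703R3.QS
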