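import Pool.Agent.H703R2.AC.Osss
import Pool.Agent.H703R3.QS.Tot

/-!
# Influential coordinates and bit fixing from a light lemma for the noise stable part
-/

set_option autoImplicit false
set_option linter.unusedSectionVars false

namespace Pool.Agent.H703R3.QS

open Finset Pool.Agent.H722R2.AA Pool.Agent.H746R2.AA Pool.Agent.H703R2.AA Pool.Agent.H703R2.AA.Pr
  Pool.Agent.H703R2.AB Pool.Agent.H703R2.AC Pool.Agent.H703R3.QP

variable {κ ι W : Type*} [Fintype κ] [DecidableEq κ] [Fintype ι] [DecidableEq ι] [Fintype W]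
variable (P : Pr κ ι W)

/-- The cost function of the decision tree. -/
noncomputable def Ps (al θ : ℝ) (T : ℕ) (g : List W → ℝ) (P : Pr κ ι W) : ℝ :=
  (al * TI (P.out T g) + Po P T / (al * θ)) / 2

lemma Ps_nonneg (al θ : ℝ) (hal : 0 < al) (hθ : 0 < θ) (T : ℕ) (g : List W → ℝ) (P : Pr κ ι W) :
    0 ≤ Ps al θ T g P := by
  unfold Ps
  have h1 := TI_nonneg (P.out T g)
  have h2 := Po_nonneg P T
  positivity

/-- The covariance bound. -/
theorem cov_bound {r : ℝ} (h0 : 0 ≤ r) (h1 : r ≤ 1) (θ : ℝ) (hθ : 0 < θ) (B : ℝ) (T : ℕ)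
    (g : List W → ℝ)
    (hB : ∀ P : Pr κ ι W, (∀ t < T, ∀ k, mq P t k ≤ θ) → Cr r (P.out T g) (P.out T g) ≤ B)
    (h : (κ → ℤˣ) → ℝ) (I : ℝ) (hI : ∀ l, Real.sqrt (Inf h l) ≤ I) (hI0 : 0 ≤ I)
    (al : ℝ) (hal : 0 < al) :
    ∀ (n : ℕ) (L : Finset κ) (P : Pr κ ι W), Lᶜ.card = n →
      (∀ l ∈ L, ∀ h w, P.a h w (some l) = fun _ _ => 0) →
      |Cr r (P.out T g) h| ≤ Real.sqrt B * Real.sqrt (Cr r h h) + Ps al θ T g P * I := by
  intro n
  induction n with
  | zero =>
    intro L P hn hL
    have hlight := hB P (fun t _ k => by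
      have hk : k ∈ L := by
        by_contra hk
        have : k ∈ Lᶜ := Finset.mem_compl.2 hk
        rw [Finset.card_eq_zero.1 hn] at this
        simp at this
      rw [pk_dead P t k (hL k hk)]
      exact hθ.le)
    have h1 := abs_Cr_le h0 (P.out T g) h
    have h2 : Real.sqrt (Cr r (P.out T g) (P.out T g)) * Real.sqrt (Cr r h h)
        ≤ Real.sqrt B * Real.sqrt (Cr r h h) :=
      mul_le_mul_of_nonneg_right (Real.sqrt_le_sqrt hlight) (Real.sqrt_nonneg _)
    have h3 : 0 ≤ Ps al θ T g P * I := mul_nonneg (Ps_nonneg al θ hal hθ T g P) hI0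
    linarith
  | succ n ih =>
    intro L P hn hL
    by_cases hlt : ∀ t < T, ∀ k, mq P t k ≤ θ
    · have hlight := hB P hlt
      have h1 := abs_Cr_le h0 (P.out T g) h
      have h2 : Real.sqrt (Cr r (P.out T g) (P.out T g)) * Real.sqrt (Cr r h h)
          ≤ Real.sqrt B * Real.sqrt (Cr r h h) :=
        mul_le_mul_of_nonneg_right (Real.sqrt_le_sqrt hlight) (Real.sqrt_nonneg _)
      have h3 : 0 ≤ Ps al θ T g P * I := mul_nonneg (Ps_nonneg al θ hal hθ T g P) hI0
      linarith
    · push Not at hlt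
      obtain ⟨t, ht, k, hk⟩ := hlt
      have hkL : k ∉ L := by
        intro hkL
        rw [pk_dead P t k (hL k hkL)] at hk
        linarith
      have hcard : (insert k L)ᶜ.card = n := by
        have h1 := Finset.card_compl_add_card L
        have h2 := Finset.card_compl_add_card (insert k L)
        rw [Finset.card_insert_of_notMem hkL] at h2
        omega
      have hdead : ∀ s : ℤˣ, ∀ l ∈ insert k L, ∀ h w, (P.res k s).a h w (some l) = fun _ _ => 0 := by
        intro s l hl h w
        change P.ra k s h w (some l) = _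
        by_cases hlk : l = k
        · subst hlk
          exact P.ra_self l s h w
        · rw [P.ra_ne k l s h w hlk]
          exact hL l (Finset.mem_of_mem_insert_of_ne hl hlk) h w
      have i1 := ih (insert k L) (P.res k 1) hcard (hdead 1)
      have i2 := ih (insert k L) (P.res k (-1)) hcard (hdead (-1))
      rw [out_res] at i1 i2
      have hsplit := Cr_split r (P.out T g) h k
      have hPot := Po_res P T k
      set m : ℝ := ∑ t ∈ Finset.range T, mq P t k with hm
      have hdk : θ ≤ m :=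
        hk.le.trans (Finset.single_le_sum (f := fun t => mq P t k)
          (fun t _ => mq_nonneg P t k) (Finset.mem_range.2 ht))
      have hq : |r * PE r (fun x y => D (P.out T g) k x * D h k y)|
          ≤ (al * Inf (P.out T g) k + m / (al * θ)) / 2 * I := by
        rw [abs_mul, abs_of_nonneg h0]
        refine (mul_le_of_le_one_left (abs_nonneg _) h1).trans ?_
        refine (abs_PE_le h0 h1 (D (P.out T g) k) (D h k)).trans ?_
        refine mul_le_mul ?_ (hI k) (Real.sqrt_nonneg _)
          (by have := Inf_nonneg (P.out T g) k; have : 0 ≤ m := hθ.le.trans hdk; positivity)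
        change Real.sqrt (Inf (P.out T g) k) ≤ _
        set J := Inf (P.out T g) k with hJ
        have hJ0 : 0 ≤ J := Inf_nonneg _ _
        have h2 : 1 / al ≤ m / (al * θ) := by
          rw [div_le_div_iff₀ hal (by positivity)]
          nlinarith
        have h3 : 2 * Real.sqrt J ≤ al * J + 1 / al := by
          have h4 := sq_nonneg (Real.sqrt al * Real.sqrt J - 1 / Real.sqrt al)
          have h5 : 0 < Real.sqrt al := Real.sqrt_pos.2 hal
          have e : (Real.sqrt al * Real.sqrt J - 1 / Real.sqrt al) ^ 2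
              = al * J - 2 * Real.sqrt J + 1 / al := by
            rw [sub_sq, mul_pow, Real.sq_sqrt hal.le, Real.sq_sqrt hJ0, div_pow,
              Real.sq_sqrt hal.le]
            field_simp
          linarith
        linarith
      have hTI := TI_res (P.out T g) k
      have hfin : (Ps al θ T g (P.res k 1) * I + Ps al θ T g (P.res k (-1)) * I) / 2
          + (al * Inf (P.out T g) k + m / (al * θ)) / 2 * I = Ps al θ T g P * I := by
        unfold Ps
        rw [out_res, out_res]
        have e1 : (al * TI (fr k 1 (P.out T g)) + Po (P.res k 1) T / (al * θ)) / 2 * I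
            + (al * TI (fr k (-1) (P.out T g)) + Po (P.res k (-1)) T / (al * θ)) / 2 * I
            = (al * (TI (fr k 1 (P.out T g)) + TI (fr k (-1) (P.out T g)))
              + (Po (P.res k 1) T + Po (P.res k (-1)) T) / (al * θ)) / 2 * I := by ring
        rw [e1, hPot, hTI]
        ring
      rw [hsplit]
      calc |(Cr r (fr k 1 (P.out T g)) h + Cr r (fr k (-1) (P.out T g)) h) / 2
            + r * PE r (fun x y => D (P.out T g) k x * D h k y)|
          ≤ |(Cr r (fr k 1 (P.out T g)) h + Cr r (fr k (-1) (P.out T g)) h) / 2|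
            + |r * PE r (fun x y => D (P.out T g) k x * D h k y)| := abs_add_le _ _
        _ ≤ (|Cr r (fr k 1 (P.out T g)) h| + |Cr r (fr k (-1) (P.out T g)) h|) / 2
            + |r * PE r (fun x y => D (P.out T g) k x * D h k y)| := by
            rw [abs_div, abs_of_pos (by norm_num : (0 : ℝ) < 2)]
            have := abs_add_le (Cr r (fr k 1 (P.out T g)) h) (Cr r (fr k (-1) (P.out T g)) h)
            linarith
        _ ≤ _ := by linarith

/-- Influential coordinates from a light lemma. -/
theorem main {r : ℝ} (h0 : 0 ≤ r) (h1 : r ≤ 1) (θ : ℝ) (hθ : 0 < θ) (T : ℕ)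
    (g : List W → ℝ) (d : ℕ) (hd : 1 ≤ d) (hTd : T ≤ d) (hdeg : Deg (2 * d) (P.out T g))
    (hV : 0 < Cr r (P.out T g) (P.out T g))
    (hB : ∀ P' : Pr κ ι W, (∀ t < T, ∀ k, mq P' t k ≤ θ) →
      Cr r (P'.out T g) (P'.out T g) ≤ Cr r (P.out T g) (P.out T g) / 4) :
    ∃ l, θ * Cr r (P.out T g) (P.out T g) ^ 2
      ≤ 8 * (d : ℝ) ^ 2 * Cov (P.out T g) (P.out T g) * Inf (P.out T g) l := by
  set f := P.out T g with hf
  set S := Cr r f f with hSdef
  set V := Cov f f with hVdef
  have hd0 : (0 : ℝ) < d := by exact_mod_cast hd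
  have hTd' : (T : ℝ) ≤ d := by exact_mod_cast hTd
  have hV0 : 0 < V := hV.trans_le (Cr_le_Cov h0 h1 f)
  have hsq : Real.sqrt (S / 4) * Real.sqrt S ≤ S / 2 := by
    have e : S / 4 = (Real.sqrt S / 2) ^ 2 := by
      rw [div_pow, Real.sq_sqrt hV.le]; norm_num
    have h1 : Real.sqrt (S / 4) = Real.sqrt S / 2 := by
      rw [e, Real.sqrt_sq (by positivity)]
    rw [h1, div_mul_eq_mul_div, Real.mul_self_sqrt hV.le]
  have hTI : TI f ≤ 2 * d * V := by
    have := TI_le (2 * d) f hdeg
    push_cast at this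
    exact this
  set w := Real.sqrt (2 * V * θ) with hw
  have hw0 : 0 < w := Real.sqrt_pos.2 (by positivity)
  have hw2 : w * w = 2 * V * θ := Real.mul_self_sqrt (by positivity)
  have key : ∀ I : ℝ, 0 ≤ I → (∀ l, Real.sqrt (Inf f l) ≤ I) → S * w ≤ 4 * d * V * I := by
    intro I hI0 hI
    have h1 := cov_bound h0 h1 θ hθ (S / 4) T g hB f I hI hI0 (1 / w) (by positivity)
      (∅ᶜ : Finset κ).card ∅ P rfl (by simp)
    rw [← hf, ← hSdef, abs_of_pos hV] at h1
    have h2 := Po_le P T
    have h3 : Ps (1 / w) θ T g P ≤ (2 * d * V / w + d * w / θ) / 2 := by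
      unfold Ps
      rw [← hf]
      have h4 : 1 / w * TI f ≤ 2 * d * V / w := by
        rw [one_div, inv_mul_le_iff₀ hw0]
        refine hTI.trans (le_of_eq ?_)
        field_simp
      have h5 : Po P T / (1 / w * θ) ≤ d * w / θ := by
        rw [div_le_div_iff₀ (by positivity) hθ]
        have h6 : Po P T ≤ d := h2.trans hTd'
        have h7 : d * w * (1 / w * θ) = d * θ := by field_simp
        rw [h7]
        exact mul_le_mul_of_nonneg_right h6 hθ.le
      linarith
    have h4 := mul_le_mul_of_nonneg_right h3 hI0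
    have h5 : S / 2 ≤ (2 * d * V / w + d * w / θ) / 2 * I := by linarith
    have h6 := mul_le_mul_of_nonneg_right h5 hw0.le
    have e2 : (2 * d * V / w + d * w / θ) / 2 * I * w = 2 * d * V * I := by
      have e3 : (2 * d * V / w + d * w / θ) / 2 * I * w
          = (d * V + d * (w * w) / (2 * θ)) * I := by
        field_simp
      rw [e3, hw2]
      field_simp
      ring
    rw [e2] at h6
    linarith
  have fin : ∀ l, S * w ≤ 4 * d * V * Real.sqrt (Inf f l) →
      θ * S ^ 2 ≤ 8 * (d : ℝ) ^ 2 * V * Inf f l := by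
    intro l h
    have h2 := pow_le_pow_left₀ (by positivity) h 2
    rw [mul_pow, mul_pow _ (Real.sqrt (Inf f l)), Real.sq_sqrt (Inf_nonneg f l), sq w, hw2] at h2
    have h3 : 2 * V * (θ * S ^ 2) ≤ 2 * V * (8 * (d : ℝ) ^ 2 * V * Inf f l) := by
      refine le_trans (le_of_eq ?_) (h2.trans (le_of_eq ?_)) <;> ring
    exact le_of_mul_le_mul_left h3 (by positivity)
  rcases isEmpty_or_nonempty κ with hκ | hκ
  · exfalso
    have := key 0 le_rfl (fun l => (IsEmpty.false l).elim)
    have h2 : 0 < S * w := by positivity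
    linarith
  · obtain ⟨l, _, hl⟩ := Finset.exists_max_image (Finset.univ : Finset κ) (fun l => Inf f l)
      Finset.univ_nonempty
    exact ⟨l, fin l (key (Real.sqrt (Inf f l)) (Real.sqrt_nonneg _)
      (fun l' => Real.sqrt_le_sqrt (hl l' (Finset.mem_univ _))))⟩

/-- The bit fixing induction. -/
lemma fix_aux {r : ℝ} (h0 : 0 ≤ r) (h1 : r ≤ 1) (θ : ℝ) (hθ : 0 < θ) (B : ℝ) (hB0 : 0 ≤ B) (T : ℕ)
    (g : List W → ℝ) (hg0 : ∀ a, 0 ≤ g a) (hg1 : ∀ a, g a ≤ 1)
    (hB : ∀ P : Pr κ ι W, (∀ t < T, ∀ k, mq P t k ≤ θ) → Cr r (P.out T g) (P.out T g) ≤ B) :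
    ∀ (n : ℕ) (P : Pr κ ι W) (u : ℝ), ∃ (S : Finset κ) (a : κ → ℤˣ), S.card ≤ n ∧
      PE r (fun x y => (P.out T g x - u) * (P.out T g y - u)) - B - Po P T / ((n + 1) * θ)
        ≤ (Ex (fun x => P.out T g (S.piecewise a x)) - u) ^ 2 := by
  have hCov1 : ∀ P : Pr κ ι W, Cr r (P.out T g) (P.out T g) ≤ 1 := by
    intro P
    refine (Cr_le_Cov h0 h1 _).trans ?_
    have := Cov_self_le (P.out T g) 1 (fun x => by
      rw [abs_of_nonneg (P.out_nonneg T g hg0 x)]; exact P.out_le T g hg1 x)
    linarith
  intro n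
  induction n with
  | zero =>
    intro P u
    refine ⟨∅, 1, by simp, ?_⟩
    simp only [Finset.piecewise_empty, Nat.cast_zero, zero_add, one_mul]
    rw [PE_sub, show Ex (fun x => P.out T g x) = Ex (P.out T g) from rfl]
    have hP := Po_nonneg P T
    by_cases hlt : ∀ t < T, ∀ k, mq P t k ≤ θ
    · have hlight := hB P hlt
      have : 0 ≤ Po P T / θ := by positivity
      linarith
    · push Not at hlt
      obtain ⟨t, ht, k, hk⟩ := hlt
      have h1 : θ ≤ Po P T := by
        refine hk.le.trans ?_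
        unfold Po
        calc mq P t k ≤ ∑ k, mq P t k :=
              Finset.single_le_sum (f := fun k => mq P t k) (fun k _ => mq_nonneg P t k)
                (Finset.mem_univ k)
          _ ≤ _ := Finset.single_le_sum (f := fun t => ∑ k, mq P t k)
                (fun t _ => Finset.sum_nonneg fun k _ => mq_nonneg P t k)
                (Finset.mem_range.2 ht)
      have h2 : 1 ≤ Po P T / θ := by rw [le_div_iff₀ hθ]; linarith
      have h3 := hCov1 P
      linarith
  | succ n ih =>
    intro P u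
    have hP := Po_nonneg P T
    have hstop : Cr r (P.out T g) (P.out T g)
        ≤ B + Po P T / (((n + 1 : ℕ) : ℝ) + 1) / θ →
        ∃ (S : Finset κ) (a : κ → ℤˣ), S.card ≤ n + 1 ∧
          PE r (fun x y => (P.out T g x - u) * (P.out T g y - u)) - B
            - Po P T / ((((n + 1 : ℕ) : ℝ) + 1) * θ)
          ≤ (Ex (fun x => P.out T g (S.piecewise a x)) - u) ^ 2 := by
      intro h
      refine ⟨∅, 1, by simp, ?_⟩
      simp only [Finset.piecewise_empty]
      rw [PE_sub, show Ex (fun x => P.out T g x) = Ex (P.out T g) from rfl, ← div_div]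
      linarith
    by_cases hlt : ∀ t < T, ∀ k, mq P t k ≤ θ
    · have hlight := hB P hlt
      refine hstop ?_
      have : 0 ≤ Po P T / (((n + 1 : ℕ) : ℝ) + 1) / θ := by positivity
      linarith
    · rcases le_or_gt (Po P T) ((((n + 1 : ℕ) : ℝ) + 1) * θ) with hle | hgt
      · push Not at hlt
        obtain ⟨t, ht, l, hk⟩ := hlt
        obtain ⟨S1, a1, hc1, h1'⟩ := ih (P.res l 1) u
        obtain ⟨S2, a2, hc2, h2'⟩ := ih (P.res l (-1)) u
        rw [out_res] at h1' h2'
        have hsplit : PE r (fun x y => (P.out T g x - u) * (P.out T g y - u))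
            ≤ (PE r (fun x y => (fr l 1 (P.out T g) x - u) * (fr l 1 (P.out T g) y - u))
              + PE r (fun x y => (fr l (-1) (P.out T g) x - u) * (fr l (-1) (P.out T g) y - u))) / 2 :=
          PE_fr_le h0 h1 (fun x => P.out T g x - u) l
        have hPot := Po_res P T l
        have hdk : θ ≤ ∑ t ∈ Finset.range T, mq P t l :=
          hk.le.trans (Finset.single_le_sum (f := fun t => mq P t l)
            (fun t _ => mq_nonneg P t l) (Finset.mem_range.2 ht))
        have hn1 : (0 : ℝ) < ((n : ℝ) + 1) * θ := by positivity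
        have hn2 : (0 : ℝ) < (((n + 1 : ℕ) : ℝ) + 1) * θ := by positivity
        have hnum : (Po P T - ∑ t ∈ Finset.range T, mq P t l) / (((n : ℝ) + 1) * θ)
            ≤ Po P T / ((((n + 1 : ℕ) : ℝ) + 1) * θ) := by
          rw [div_le_div_iff₀ hn1 hn2]
          push_cast at hle ⊢
          have h3 : (Po P T - ∑ t ∈ Finset.range T, mq P t l) * (((n : ℝ) + 1 + 1) * θ)
              ≤ (Po P T - θ) * (((n : ℝ) + 1 + 1) * θ) := by
            refine mul_le_mul_of_nonneg_right (by linarith) (by positivity)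
          nlinarith
        have key : ∀ b : ℤˣ, ∀ (S : Finset κ) (a : κ → ℤˣ), S.card ≤ n →
            ∃ (S' : Finset κ) (a' : κ → ℤˣ), S'.card ≤ n + 1 ∧
              Ex (fun x => fr l b (P.out T g) (S.piecewise a x))
                = Ex (fun x => P.out T g (S'.piecewise a' x)) := by
          intro b S a hc
          refine ⟨insert l S, Function.update a l b, (Finset.card_insert_le _ _).trans (by omega), ?_⟩
          refine Ex_congr fun x => ?_
          unfold fr
          congr 1
          funext i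
          by_cases hi : i = l
          · subst hi
            rw [Function.update_self, Finset.piecewise_eq_of_mem _ _ _ (Finset.mem_insert_self _ _),
              Function.update_self]
          · rw [Function.update_of_ne hi]
            by_cases hiS : i ∈ S
            · rw [Finset.piecewise_eq_of_mem _ _ _ hiS,
                Finset.piecewise_eq_of_mem _ _ _ (Finset.mem_insert_of_mem hiS),
                Function.update_of_ne hi]
            · rw [Finset.piecewise_eq_of_notMem _ _ _ hiS, Finset.piecewise_eq_of_notMem]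
              simp [hi, hiS]
        obtain ⟨S1', a1', hc1', e1⟩ := key 1 S1 a1 hc1
        obtain ⟨S2', a2', hc2', e2⟩ := key (-1) S2 a2 hc2
        rw [e1] at h1'
        rw [e2] at h2'
        have havg : (Po (P.res l 1) T / (((n : ℝ) + 1) * θ)
            + Po (P.res l (-1)) T / (((n : ℝ) + 1) * θ)) / 2
            = (Po P T - ∑ t ∈ Finset.range T, mq P t l) / (((n : ℝ) + 1) * θ) := by
          rw [← add_div, hPot]; ring
        by_cases hcmp : (Ex (fun x => P.out T g (S2'.piecewise a2' x)) - u) ^ 2 ≤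
            (Ex (fun x => P.out T g (S1'.piecewise a1' x)) - u) ^ 2
        · refine ⟨S1', a1', hc1', ?_⟩
          linarith
        · refine ⟨S2', a2', hc2', ?_⟩
          push Not at hcmp
          linarith
      · refine hstop ?_
        have h1 : 1 ≤ Po P T / (((n + 1 : ℕ) : ℝ) + 1) / θ := by
          rw [div_div, le_div_iff₀ (by positivity)]
          linarith
        have h3 := hCov1 P
        linarith

/-- Bit fixing from a light lemma. -/
theorem fix {r : ℝ} (h0 : 0 ≤ r) (h1 : r ≤ 1) (θ : ℝ) (hθ : 0 < θ) (T : ℕ) (hT : 1 ≤ T)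
    (g : List W → ℝ) (hg0 : ∀ a, 0 ≤ g a)
    (hg1 : ∀ a, g a ≤ 1) (hV : 0 < Cr r (P.out T g) (P.out T g))
    (hB : ∀ P' : Pr κ ι W, (∀ t < T, ∀ k, mq P' t k ≤ θ) →
      Cr r (P'.out T g) (P'.out T g) ≤ Cr r (P.out T g) (P.out T g) / 4) :
    ∃ (S : Finset κ) (a : κ → ℤˣ),
      (S.card : ℝ) ≤ 4 * T / (θ * Cr r (P.out T g) (P.out T g)) ∧
      Cr r (P.out T g) (P.out T g) / 2
        ≤ (Ex (fun x => P.out T g (S.piecewise a x)) - Ex (P.out T g)) ^ 2 := by
  set f := P.out T g with hf
  set V := Cr r f f with hVdef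
  have hT0 : (0 : ℝ) < T := by exact_mod_cast hT
  set N : ℕ := ⌊4 * T / (θ * V)⌋₊ with hN
  obtain ⟨S, a, hS, h⟩ := fix_aux h0 h1 θ hθ (V / 4) (by positivity) T g hg0 hg1 hB N P (Ex f)
  refine ⟨S, a, ?_, ?_⟩
  · have h1 : (N : ℝ) ≤ 4 * T / (θ * V) := Nat.floor_le (by positivity)
    calc (S.card : ℝ) ≤ N := by exact_mod_cast hS
      _ ≤ _ := h1
  · rw [← hf, PE_sub, sub_self, zero_pow (by norm_num), add_zero, ← hVdef] at h
    have h2 := Po_le P T
    have h3 : 4 * T / (θ * V) < (N : ℝ) + 1 := Nat.lt_floor_add_one _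
    have h4 : Po P T / (((N : ℝ) + 1) * θ) ≤ V / 4 := by
      rw [div_le_iff₀ (by positivity)]
      rw [div_lt_iff₀ (by positivity)] at h3
      nlinarith
    linarith

end Pool.Agent.H703R3.QS
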