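import Pool.Agent.H703R3.QS.PowLight

/-!
# The numbers for the nearly linear bound
-/

set_option autoImplicit false
set_option linter.unusedSectionVars false

namespace Pool.Agent.H703R3.QS

/-- The numbers. -/
lemma numbers_p (b T : ℕ) (hT : 1 ≤ T) (δ S : ℝ) (hδ0 : 1 / (4 * T) ≤ δ) (hδ1 : δ ≤ 1 / 2)
    (hS0 : 0 < S) (hS1 : S ≤ 1) :
    ∃ N n : ℕ, 1 ≤ N ∧ 2 ^ (b + 1) * (640 * Real.log (50 * T * N) + 161) ≤ n ∧
      T * Real.exp (-(8100 * 2 ^ (b + 1) * (Real.log (4 * T) * Real.log (1 / δ))
          + (1 + 2 / ((b : ℝ) + 1)) * Real.log (1 / S))) ^ (b + 1)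
        + 700 * N / 2 ^ N * T ≤ δ ^ n * (δ * S / (32 * (T : ℝ) ^ 2)) ^ (b + 2) := by
  have hT1 : (1 : ℝ) ≤ T := by exact_mod_cast hT
  have hT0 : (0 : ℝ) < T := by linarith
  have hδp : 0 < δ := lt_of_lt_of_le (by positivity) hδ0
  set Λ : ℝ := Real.log (4 * T) with hΛ
  set L : ℝ := Real.log (1 / δ) with hL
  set s : ℝ := Real.log (1 / S) with hs
  set a : ℝ := (b : ℝ) + 1 with ha
  set c : ℝ := 2 ^ (b + 1) with hc
  have hb0 : (0 : ℝ) ≤ b := Nat.cast_nonneg b
  have ha1 : 1 ≤ a := by linarith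
  have hc2 : 2 ≤ c := by
    have h1 : (2 : ℝ) ^ 1 ≤ 2 ^ (b + 1) := pow_le_pow_right₀ (by norm_num) (by omega)
    linarith
  have hs0 : 0 ≤ s := Real.log_nonneg (by rw [le_div_iff₀ hS0]; linarith)
  have l2a := Real.log_two_gt_d9
  have l2b := Real.log_two_lt_d9
  have hL2 : (0.69 : ℝ) ≤ L := by
    have h1 : Real.log 2 ≤ L := Real.log_le_log (by norm_num) (by rw [le_div_iff₀ hδp]; linarith)
    linarith
  have hΛ2 : (1.386 : ℝ) ≤ Λ := by
    have h1 : Real.log (2 ^ 2) ≤ Λ := Real.log_le_log (by norm_num) (by linarith)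
    rw [Real.log_pow] at h1
    push_cast at h1
    linarith
  have hLΛ : L ≤ Λ := Real.log_le_log (by positivity) (by
    rw [div_le_iff₀ hδp]
    rw [div_le_iff₀ (by positivity)] at hδ0
    linarith)
  have hL0 : 0 < L := by linarith
  set A : ℝ := Λ * L with hA
  have hA1 : 0.95 ≤ A := by nlinarith
  have hA0 : 0 < A := by linarith
  have hLA : 1.386 * L ≤ A := by nlinarith
  have hΛA : 0.69 * Λ ≤ A := by nlinarith
  have hLL : L * L ≤ A := by nlinarith
  -- products with `a` and `c`
  have hac0 : 0 < a * c := by positivity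
  have hcL : 1.386 * (c * L) ≤ c * A := by
    have := mul_le_mul_of_nonneg_left hLA (by linarith : 0 ≤ c); linarith
  have hacL : 1.386 * (a * c * L) ≤ a * c * A := by
    have := mul_le_mul_of_nonneg_left hLA hac0.le; linarith
  have hcA : c * A ≤ a * c * A := by
    have := mul_le_mul_of_nonneg_right ha1 (by positivity : 0 ≤ c * A); linarith
  have haA : 2 * (a * A) ≤ a * c * A := by
    have := mul_le_mul_of_nonneg_right hc2 (by positivity : 0 ≤ a * A); linarith
  have hAaA : A ≤ a * A := le_mul_of_one_le_left hA0.le ha1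
  have has : s ≤ a * s := le_mul_of_one_le_left hs0 ha1
  have hcLL : c * (L * L) ≤ c * A := mul_le_mul_of_nonneg_left hLL (by linarith)
  set N : ℕ := ⌈(12000 * (a * c * A) + 42 * (a * A)) + (2 * (a * s) + 2 * s)⌉₊ with hN
  have hN1 : (12000 * (a * c * A) + 42 * (a * A)) + (2 * (a * s) + 2 * s) ≤ N := Nat.le_ceil _
  have hN2 : (N : ℝ) ≤ 12000 * (a * c * A) + 44 * (a * A) + 4 * (a * s) := by
    have h1 : (N : ℝ) < (12000 * (a * c * A) + 42 * (a * A)) + (2 * (a * s) + 2 * s) + 1 :=
      Nat.ceil_lt_add_one (by positivity)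
    linarith
  have hNr : (1 : ℝ) ≤ N := by
    have h1 : 0 ≤ a * s := by positivity
    have h2 : 0 ≤ a * c * A := by positivity
    linarith
  have hNpos : 1 ≤ N := by exact_mod_cast hNr
  have hN0 : (0 : ℝ) < N := by linarith
  -- a logarithm bound
  have hlogN : ∀ M : ℝ, 0 < M → Real.log N ≤ Real.log M + N / M - 1 := by
    intro M hM
    have h1 := Real.log_le_sub_one_of_pos (by positivity : 0 < (N : ℝ) / M)
    rw [Real.log_div hN0.ne' hM.ne'] at h1
    linarith
  have hlog50 : Real.log (50 * T * N) = Real.log (50 / 4) + Λ + Real.log N := by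
    rw [hΛ, ← Real.log_mul (by norm_num) (by positivity), ← Real.log_mul (by positivity) hN0.ne']
    congr 1
    ring
  have hl125 : Real.log (50 / 4) ≤ 2.78 := by
    have h1 : Real.log (50 / 4) ≤ Real.log (2 ^ 4) := Real.log_le_log (by norm_num) (by norm_num)
    rw [Real.log_pow] at h1
    push_cast at h1
    linarith
  have hlogM : Real.log (3840 * a * c) ≤ 7.32 + 1.7 * a := by
    rw [Real.log_mul (by positivity) (by positivity), Real.log_mul (by norm_num) (by positivity)]
    have h1 : Real.log 3840 ≤ 8.32 := by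
      have h2 : Real.log 3840 ≤ Real.log (2 ^ 12) := Real.log_le_log (by norm_num) (by norm_num)
      rw [Real.log_pow] at h2
      push_cast at h2
      linarith
    have h2 : Real.log a ≤ a - 1 := Real.log_le_sub_one_of_pos (by linarith)
    have h3 : Real.log c = a * Real.log 2 := by
      rw [hc, Real.log_pow, ha]; push_cast; ring
    have h4 : a * Real.log 2 ≤ 0.7 * a := by
      have := mul_le_mul_of_nonneg_left l2b.le (by linarith : 0 ≤ a)
      linarith
    linarith
  set n : ℕ := ⌈c * (640 * Real.log (50 * T * N) + 161)⌉₊ with hn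
  have hn1 : c * (640 * Real.log (50 * T * N) + 161) ≤ n := Nat.le_ceil _
  have hlog0 : 0 ≤ Real.log (50 * T * N) := by
    refine Real.log_nonneg ?_
    nlinarith
  have hn2 : (n : ℝ) ≤ c * (640 * Real.log (50 * T * N) + 162) := by
    have h1 : (n : ℝ) < c * (640 * Real.log (50 * T * N) + 161) + 1 :=
      Nat.ceil_lt_add_one (by positivity)
    linarith
  set ν : ℝ := N / (6 * a) with hν
  have hνN : 6 * a * ν = N := by rw [hν]; field_simp
  have hν0 : 0 ≤ ν := by positivity
  have hν6 : 6 * ν ≤ N := by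
    have := mul_le_mul_of_nonneg_right ha1 hν0
    linarith
  have hν2 : ν ≤ 2000 * (c * A) + 7.4 * A + 2 / 3 * s := by
    have h1 : 6 * a * ν ≤ 6 * a * (2000 * (c * A) + 7.4 * A + 2 / 3 * s) := by
      rw [hνN]
      have e : 6 * a * (2000 * (c * A) + 7.4 * A + 2 / 3 * s)
          = 12000 * (a * c * A) + 44.4 * (a * A) + 4 * (a * s) := by ring
      rw [e]
      linarith
    exact le_of_mul_le_mul_left h1 (by positivity)
  -- `n L`
  have hnL : (n : ℝ) * L ≤ 6000 * (a * c * A) + ν := by
    have h1 := hlogN (3840 * a * c * L) (by positivity)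
    have h2 : Real.log (3840 * a * c * L) ≤ 7.32 + 1.7 * a + (L - 1) := by
      rw [Real.log_mul (by positivity) hL0.ne']
      have := Real.log_le_sub_one_of_pos hL0
      linarith
    have h3 : c * (L * Real.log N) ≤ 5.32 * (c * L) + 1.7 * (a * c * L) + c * (L * L)
        + N / (3840 * a) := by
      have h4 : Real.log N ≤ 5.32 + 1.7 * a + L + N / (3840 * a * c * L) := by linarith
      have h5 := mul_le_mul_of_nonneg_left h4 (by positivity : 0 ≤ c * L)
      have h6 : c * L * (5.32 + 1.7 * a + L + N / (3840 * a * c * L))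
          = 5.32 * (c * L) + 1.7 * (a * c * L) + c * (L * L) + N / (3840 * a) := by
        field_simp
      linarith
    have h4 := mul_le_mul_of_nonneg_right hn2 hL0.le
    rw [hlog50] at h4
    have h5 : c * (640 * (Real.log (50 / 4) + Λ + Real.log N) + 162) * L
        = 640 * (c * L * Real.log (50 / 4)) + 640 * (c * A) + 640 * (c * (L * Real.log N))
          + 162 * (c * L) := by
      rw [hA]; ring
    have h6 : c * L * Real.log (50 / 4) ≤ c * L * 2.78 :=
      mul_le_mul_of_nonneg_left hl125 (by positivity)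
    have h7 : 640 * (N / (3840 * a)) = ν := by
      rw [hν]; field_simp; norm_num
    linarith
  refine ⟨N, n, hNpos, hn1, ?_⟩
  have hδe : δ = Real.exp (-L) := by
    rw [hL, ← Real.log_inv, one_div, inv_inv, Real.exp_log hδp]
  have hSe : S = Real.exp (-s) := by
    rw [hs, ← Real.log_inv, one_div, inv_inv, Real.exp_log hS0]
  have h4T : (0 : ℝ) < 4 * T := by linarith
  have hTe : (32 * (T : ℝ) ^ 2) = Real.exp (Real.log 2 + 2 * Λ) := by
    rw [two_mul, Real.exp_add, Real.exp_add, hΛ, Real.exp_log h4T,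
      Real.exp_log (by norm_num : (0 : ℝ) < 2)]
    ring
  have hE : δ ^ n * (δ * S / (32 * (T : ℝ) ^ 2)) ^ (b + 2)
      = Real.exp (-(n * L) - (a + 1) * (L + s + Real.log 2 + 2 * Λ)) := by
    rw [hTe]
    rw [hδe, hSe, ← Real.exp_nat_mul, ← Real.exp_add, ← Real.exp_sub, ← Real.exp_nat_mul,
      ← Real.exp_add]
    congr 1
    rw [ha]
    push_cast
    ring
  rw [hE]
  have hE2 : (a + 1) * (L + s + Real.log 2 + 2 * Λ) ≤ a * s + s + 8.8 * (a * A) := by
    have h1 : L + Real.log 2 + 2 * Λ ≤ 4.4 * A := by linarith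
    have h2 := mul_le_mul_of_nonneg_left h1 (by linarith : 0 ≤ a + 1)
    have e1 : (a + 1) * (L + s + Real.log 2 + 2 * Λ)
        = (a + 1) * (L + Real.log 2 + 2 * Λ) + a * s + s := by ring
    have e2 : (a + 1) * (4.4 * A) = 4.4 * (a * A) + 4.4 * A := by ring
    linarith
  set q : ℝ := Real.exp (-(n * L) - (a + 1) * (L + s + Real.log 2 + 2 * Λ)) with hq
  -- first term
  have h1 : (T : ℝ) * Real.exp (-(8100 * c * A + (1 + 2 / a) * s)) ^ (b + 1) ≤ q / 2 := by
    have e1 : (T : ℝ) * Real.exp (-(8100 * c * A + (1 + 2 / a) * s)) ^ (b + 1)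
        = Real.exp (Λ - (8100 * (a * c * A) + (a * s + 2 * s))) / 4 := by
      rw [← Real.exp_nat_mul, Real.exp_sub, hΛ, Real.exp_log (by positivity)]
      have e2 : ((b + 1 : ℕ) : ℝ) * -(8100 * c * A + (1 + 2 / a) * s)
          = -(8100 * (a * c * A) + (a * s + 2 * s)) := by
        push_cast
        rw [← ha]
        field_simp
      rw [e2, Real.exp_neg]
      field_simp
    rw [e1]
    have h2 : Real.exp (Λ - (8100 * (a * c * A) + (a * s + 2 * s))) ≤ q := by
      rw [hq]
      refine Real.exp_le_exp.2 ?_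
      linarith
    have h3 := Real.exp_pos (-(n * L) - (a + 1) * (L + s + Real.log 2 + 2 * Λ))
    rw [← hq] at h3
    linarith
  -- second term
  have h2 : 700 * (N : ℝ) / 2 ^ N * T ≤ q / 2 := by
    have h3 : 700 * (N : ℝ) / 2 ^ N * T = (1400 * N * T) / 2 ^ N / 2 := by ring
    rw [h3]
    refine div_le_div_of_nonneg_right ?_ (by norm_num)
    have h4 : (1400 * N * T) / 2 ^ N = Real.exp (Real.log 350 + Λ + Real.log N - N * Real.log 2) := by
      rw [Real.exp_sub, Real.exp_add, Real.exp_add, Real.exp_log hN0, Real.exp_log (by norm_num),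
        hΛ, Real.exp_log (by positivity), ← Real.log_pow, Real.exp_log (by positivity)]
      ring
    rw [h4, hq]
    refine Real.exp_le_exp.2 ?_
    have h5 := hlogN 64 (by norm_num)
    have h6 : Real.log 64 ≤ 4.16 := by
      rw [show (64 : ℝ) = 2 ^ 6 by norm_num, Real.log_pow]
      push_cast
      linarith
    have h7 : Real.log 350 ≤ 6.24 := by
      have h8 : Real.log 350 ≤ Real.log (2 ^ 9) := Real.log_le_log (by norm_num) (by norm_num)
      rw [Real.log_pow] at h8
      push_cast at h8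
      linarith
    have h8 : (N : ℝ) * 0.69 ≤ N * Real.log 2 := mul_le_mul_of_nonneg_left (by linarith) hN0.le
    linarith
  linarith

end Pool.Agent.H703R3.QS
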