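import Pool.Agent.H703R2.AA.Four
import Pool.Agent.H703R3.QP.FinalQ
import Pool.Agent.H703R3.QS.PowNum
import Pool.Agent.H703R3.QS.Osss

/-!
# A nearly linear Aaronson-Ambainis bound for all processes
-/

set_option autoImplicit false
set_option linter.unusedSectionVars false

namespace Pool.Agent.H703R3.QS

open Finset Pool.Agent.H722R2.AA Pool.Agent.H746R2.AA Pool.Agent.H703R2.AA Pool.Agent.H703R2.AA.Pr
  Pool.Agent.H703R2.AB Pool.Agent.H703R2.AC Pool.Agent.H703R3.QP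

variable {κ ι W : Type*} [Fintype κ] [DecidableEq κ] [Fintype ι] [DecidableEq ι] [Fintype W]
variable (P : Pr κ ι W)

lemma Deg_out (T : ℕ) (g : List W → ℝ) : Deg (2 * T) (P.out T g) := by
  have e : P.out T g = fun x => ∑ a : Fin T → W, g (List.ofFn a)
      * ∑ i, (P.A (List.ofFn a) x i * P.A (List.ofFn a) x i) := by
    funext x
    unfold out nsq
    rw [S_eq_ofFn]
    simp_rw [sq]
  rw [e]
  refine Deg.sum _ _ fun a _ => Deg.mul_left _ (Deg.sum _ _ fun i _ => ?_)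
  have h := P.Deg_A (List.ofFn a) i
  rw [List.length_ofFn] at h
  have h2 := h.mul h
  rwa [← two_mul] at h2

/-- Nearly all the variance is noise stable at the noise rate `1 / (4 T)`. -/
lemma Cr_ge_half (T : ℕ) (hT : 1 ≤ T) (g : List W → ℝ) :
    Cov (P.out T g) (P.out T g) / 2 ≤ Cr (1 - 1 / (4 * T)) (P.out T g) (P.out T g) := by
  have hT1 : (1 : ℝ) ≤ T := by exact_mod_cast hT
  have hd1 : 1 / (4 * (T : ℝ)) ≤ 1 / 4 := by
    rw [div_le_div_iff₀ (by positivity) (by norm_num)]; linarith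
  have hd0 : 0 < 1 / (4 * (T : ℝ)) := by positivity
  refine le_trans ?_ (Cr_ge_deg (by linarith) (by linarith) (2 * T) _ (Deg_out P T g))
  have hb := one_add_mul_le_pow (by linarith : (-2 : ℝ) ≤ -(1 / (4 * (T : ℝ)))) (2 * T)
  have e1 : 1 + ((2 * T : ℕ) : ℝ) * -(1 / (4 * (T : ℝ))) = 1 / 2 := by
    push_cast
    field_simp
    norm_num
  rw [e1] at hb
  have e2 : (1 + -(1 / (4 * (T : ℝ)))) = 1 - 1 / (4 * T) := by ring
  rw [e2] at hb
  have h := mul_le_mul_of_nonneg_right hb (Cov_self_nonneg (P.out T g))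
  linarith

/-- The threshold. -/
noncomputable def tp (b T : ℕ) (δ S : ℝ) : ℝ :=
  Real.exp (-(8100 * 2 ^ (b + 1) * (Real.log (4 * T) * Real.log (1 / δ))
    + (1 + 2 / ((b : ℝ) + 1)) * Real.log (1 / S)))

lemma light_num_p (b T : ℕ) (hT : 1 ≤ T) (δ S : ℝ) (hδ0 : 1 / (4 * T) ≤ δ) (hδ1 : δ ≤ 1 / 2)
    (hS0 : 0 < S) (hS1 : S ≤ 1) (g : List W → ℝ)
    (hg0 : ∀ a, 0 ≤ g a) (hg1 : ∀ a, g a ≤ 1) (P : Pr κ ι W)
    (hl : ∀ t < T, ∀ k, mq P t k ≤ tp b T δ S) :
    Cr (1 - δ) (P.out T g) (P.out T g) ≤ S / 4 := by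
  obtain ⟨N, n, hN, hn, hsmall⟩ := numbers_p b T hT δ S hδ0 hδ1 hS0 hS1
  have hT1 : (1 : ℝ) ≤ T := by exact_mod_cast hT
  have hδp : 0 < δ := lt_of_lt_of_le (by positivity) hδ0
  have h := light_p P b T hT N hN n hn δ (δ * S / (32 * (T : ℝ) ^ 2)) (tp b T δ S) hδp
    (by linarith) (by positivity) (Real.exp_pos _).le hl hsmall g hg0 hg1
  refine h.trans (le_of_eq ?_)
  field_simp
  norm_num

lemma tp_pow (b T : ℕ) (δ S : ℝ) (hS : 0 < S) :
    tp b T δ S ^ (b + 1) = Real.exp (-(8100 * (((b : ℝ) + 1) * 2 ^ (b + 1)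
      * (Real.log (4 * T) * Real.log (1 / δ))))) * S ^ (b + 3) := by
  unfold tp
  rw [← Real.exp_nat_mul]
  have e : ((b + 1 : ℕ) : ℝ) * -(8100 * 2 ^ (b + 1) * (Real.log (4 * T) * Real.log (1 / δ))
      + (1 + 2 / ((b : ℝ) + 1)) * Real.log (1 / S))
      = -(8100 * (((b : ℝ) + 1) * 2 ^ (b + 1) * (Real.log (4 * T) * Real.log (1 / δ))))
        + ((b + 3 : ℕ) : ℝ) * Real.log S := by
    rw [one_div S, Real.log_inv]
    push_cast
    field_simp
    ring
  rw [e, Real.exp_add, Real.exp_nat_mul, Real.exp_log hS]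

/-- The influence inequality with a nearly linear dependence on the variance. -/
theorem infl_p (b T : ℕ) (hT : 1 ≤ T) (δ : ℝ) (hδ0 : 1 / (4 * T) ≤ δ) (hδ1 : δ ≤ 1 / 2)
    (g : List W → ℝ) (hg0 : ∀ a, 0 ≤ g a)
    (hg1 : ∀ a, g a ≤ 1) (hV : 0 < Cr (1 - δ) (P.out T g) (P.out T g)) :
    ∃ l, Cr (1 - δ) (P.out T g) (P.out T g) ^ (3 * b + 5)
      ≤ Real.exp (8150 * (((b : ℝ) + 1) * 2 ^ (b + 1) * (Real.log (4 * T) * Real.log (1 / δ))))
        * (Cov (P.out T g) (P.out T g) * Inf (P.out T g) l) ^ (b + 1) := by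
  have hT1 : (1 : ℝ) ≤ T := by exact_mod_cast hT
  have hT0 : (0 : ℝ) < T := by linarith
  have hδp : 0 < δ := lt_of_lt_of_le (by positivity) hδ0
  have hS1 := (Cr_le_Cov (by linarith : 0 ≤ 1 - δ) (by linarith) (P.out T g)).trans
    (Cov_le_one P T g hg0 hg1)
  obtain ⟨l, hl⟩ := main P (by linarith : 0 ≤ 1 - δ) (by linarith)
    (tp b T δ (Cr (1 - δ) (P.out T g) (P.out T g))) (Real.exp_pos _)
    T g T hT le_rfl (Deg_out P T g) hV
    (fun P' h => light_num_p b T hT δ _ hδ0 hδ1 hV hS1 g hg0 hg1 P' h)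
  refine ⟨l, ?_⟩
  set S := Cr (1 - δ) (P.out T g) (P.out T g) with hS
  set V := Cov (P.out T g) (P.out T g) with hVd
  set J := Inf (P.out T g) l with hJ
  have hJ0 : 0 ≤ J := Inf_nonneg _ _
  have hV0 : 0 ≤ V := Cov_self_nonneg _
  have h1 := pow_le_pow_left₀ (by unfold tp; positivity) hl (b + 1)
  rw [mul_pow, tp_pow b T δ S hV, mul_assoc (8 * (T : ℝ) ^ 2), mul_pow (8 * (T : ℝ) ^ 2)] at h1
  set q := Real.log (4 * T) * Real.log (1 / δ) with hq
  have hq0 : 0.69 * Real.log (4 * T) ≤ q := by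
    have hL2 : (0.69 : ℝ) ≤ Real.log (1 / δ) := by
      have h1 : Real.log 2 ≤ Real.log (1 / δ) :=
        Real.log_le_log (by norm_num) (by rw [le_div_iff₀ hδp]; linarith)
      have := Real.log_two_gt_d9
      linarith
    have hΛ0 : 0 ≤ Real.log (4 * T) := Real.log_nonneg (by linarith)
    rw [hq]
    nlinarith
  have hΛ0 : 0 ≤ Real.log (4 * T) := Real.log_nonneg (by linarith)
  have h8 : 8 * (T : ℝ) ^ 2 ≤ Real.exp (50 * (2 ^ (b + 1) * q)) := by
    have h2 : 16 * (T : ℝ) ^ 2 = Real.exp (2 * Real.log (4 * T)) := by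
      rw [two_mul, Real.exp_add, Real.exp_log (by positivity)]
      ring
    have h4 : (1 : ℝ) ≤ 2 ^ (b + 1) := one_le_pow₀ (by norm_num)
    have h5 : q ≤ 2 ^ (b + 1) * q := le_mul_of_one_le_left (by linarith) h4
    have h3 : Real.exp (2 * Real.log (4 * T)) ≤ Real.exp (50 * (2 ^ (b + 1) * q)) :=
      Real.exp_le_exp.2 (by linarith)
    have h6 : 0 ≤ (T : ℝ) ^ 2 := by positivity
    linarith
  have h9 := pow_le_pow_left₀ (by positivity) h8 (b + 1)
  rw [← Real.exp_nat_mul] at h9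
  have e1 : ((b + 1 : ℕ) : ℝ) * (50 * (2 ^ (b + 1) * q)) = 50 * (((b : ℝ) + 1) * 2 ^ (b + 1) * q) := by
    push_cast; ring
  rw [e1] at h9
  set u := ((b : ℝ) + 1) * 2 ^ (b + 1) * q with hu
  have h10 : Real.exp (-(8100 * u)) * S ^ (b + 3) * (S ^ 2) ^ (b + 1)
      ≤ Real.exp (50 * u) * (V * J) ^ (b + 1) :=
    h1.trans (mul_le_mul_of_nonneg_right h9 (by positivity))
  have h11 := mul_le_mul_of_nonneg_left h10 (Real.exp_pos (8100 * u)).le
  have e2 : Real.exp (8100 * u) * (Real.exp (-(8100 * u)) * S ^ (b + 3) * (S ^ 2) ^ (b + 1))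
      = S ^ (3 * b + 5) := by
    have e3 : Real.exp (8100 * u) * Real.exp (-(8100 * u)) = 1 := by
      rw [← Real.exp_add, add_neg_cancel, Real.exp_zero]
    calc _ = (Real.exp (8100 * u) * Real.exp (-(8100 * u))) * (S ^ (b + 3) * (S ^ 2) ^ (b + 1)) := by
          ring
      _ = _ := by rw [e3, one_mul]; ring
  have e4 : Real.exp (8100 * u) * (Real.exp (50 * u) * (V * J) ^ (b + 1))
      = Real.exp (8150 * u) * (V * J) ^ (b + 1) := by
    rw [← mul_assoc, ← Real.exp_add]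
    congr 2
    ring
  rw [e2, e4] at h11
  exact h11

/-- The influence inequality with a nearly linear dependence on the variance. -/
theorem infl_lin (b T : ℕ) (hT : 1 ≤ T) (g : List W → ℝ) (hg0 : ∀ a, 0 ≤ g a)
    (hg1 : ∀ a, g a ≤ 1) (hV : 0 < Cov (P.out T g) (P.out T g)) :
    ∃ l, Cov (P.out T g) (P.out T g) ^ (b + 2)
      ≤ (Real.exp (4100 * 2 ^ (b + 1) * Real.log (4 * T) ^ 2) * Real.sqrt (Inf (P.out T g) l))
        ^ (b + 1) := by
  have hT1 : (1 : ℝ) ≤ T := by exact_mod_cast hT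
  have h1 := Cr_ge_half P T hT g
  obtain ⟨l, hl⟩ := infl_p P b T hT (1 / (4 * T)) le_rfl
    (by rw [div_le_div_iff₀ (by positivity) (by norm_num)]; linarith) g hg0 hg1 (by linarith)
  refine ⟨l, ?_⟩
  rw [one_div_one_div, ← sq] at hl
  set V := Cov (P.out T g) (P.out T g) with hVd
  set J := Inf (P.out T g) l with hJ
  have hJ0 : 0 ≤ J := Inf_nonneg _ _
  set Λ := Real.log (4 * T) with hΛ
  have hΛ1 : 1.386 ≤ Λ := by
    have h1 : Real.log (2 ^ 2) ≤ Λ := Real.log_le_log (by norm_num) (by linarith)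
    rw [Real.log_pow] at h1
    push_cast at h1
    have := Real.log_two_gt_d9
    linarith
  set u := ((b : ℝ) + 1) * 2 ^ (b + 1) * Λ ^ 2 with hu
  have h2 : (V / 2) ^ (3 * b + 5) ≤ Real.exp (8150 * u) * (V * J) ^ (b + 1) :=
    (pow_le_pow_left₀ (by positivity) h1 _).trans hl
  have h3 : V ^ (3 * b + 5) ≤ Real.exp (8200 * u) * (V * J) ^ (b + 1) := by
    have h4 : (2 : ℝ) ^ (3 * b + 5) ≤ Real.exp (50 * u) := by
      have h5 : (2 : ℝ) ^ (3 * b + 5) = Real.exp (((3 * b + 5 : ℕ) : ℝ) * Real.log 2) := by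
        rw [Real.exp_nat_mul, Real.exp_log (by norm_num)]
      rw [h5]
      refine Real.exp_le_exp.2 ?_
      have h6 : ((3 * b + 5 : ℕ) : ℝ) * Real.log 2 ≤ 5 * ((b : ℝ) + 1) := by
        push_cast
        have := Real.log_two_lt_d9
        have hb0 : (0 : ℝ) ≤ b := Nat.cast_nonneg b
        nlinarith
      have h7 : (1 : ℝ) ≤ 2 ^ (b + 1) := one_le_pow₀ (by norm_num)
      have h8 : (1 : ℝ) ≤ Λ ^ 2 := by nlinarith
      have h9 : (1 : ℝ) ≤ 2 ^ (b + 1) * Λ ^ 2 := one_le_mul_of_one_le_of_one_le h7 h8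
      have h10 : ((b : ℝ) + 1) ≤ u := by
        rw [hu, mul_assoc]
        exact le_mul_of_one_le_right (by positivity) h9
      have h11 : 0 ≤ ((b : ℝ) + 1) := by positivity
      linarith
    have h5 : V ^ (3 * b + 5) = 2 ^ (3 * b + 5) * (V / 2) ^ (3 * b + 5) := by
      rw [← mul_pow]; congr 1; ring
    rw [h5]
    calc (2 : ℝ) ^ (3 * b + 5) * (V / 2) ^ (3 * b + 5)
        ≤ Real.exp (50 * u) * (Real.exp (8150 * u) * (V * J) ^ (b + 1)) :=
          mul_le_mul h4 h2 (by positivity) (Real.exp_pos _).le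
      _ = _ := by rw [← mul_assoc, ← Real.exp_add]; congr 2; ring
  -- divide by `V ^ (b + 1)`
  have h4 : V ^ (2 * (b + 2)) ≤ Real.exp (8200 * u) * J ^ (b + 1) := by
    have h5 : V ^ (b + 1) * V ^ (2 * (b + 2)) ≤ V ^ (b + 1) * (Real.exp (8200 * u) * J ^ (b + 1)) := by
      refine le_trans (le_of_eq ?_) (h3.trans (le_of_eq ?_))
      · rw [← pow_add]; congr 1; ring
      · rw [mul_pow]; ring
    exact le_of_mul_le_mul_left h5 (by positivity)
  have h5 : (V ^ (b + 2)) ^ 2 ≤ ((Real.exp (4100 * 2 ^ (b + 1) * Λ ^ 2) * Real.sqrt J) ^ (b + 1)) ^ 2 := by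
    have e1 : ((Real.exp (4100 * 2 ^ (b + 1) * Λ ^ 2) * Real.sqrt J) ^ (b + 1)) ^ 2
        = Real.exp (8200 * u) * J ^ (b + 1) := by
      rw [← pow_mul, mul_comm (b + 1) 2, pow_mul, mul_pow, Real.sq_sqrt hJ0, mul_pow,
        ← Real.exp_nat_mul, ← Real.exp_nat_mul]
      congr 2
      rw [hu]
      push_cast
      ring
    rw [e1, ← pow_mul, mul_comm (b + 2) 2]
    exact h4
  exact (pow_le_pow_iff_left₀ (by positivity) (by positivity) (by norm_num)).1 h5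

end Pool.Agent.H703R3.QS
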