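import Pool.Agent.H703R3.QS.Light
import Pool.Agent.H703R3.QS.PowFinal

/-!
# Noise stable Aaronson-Ambainis bounds for all processes
-/

set_option autoImplicit false
set_option linter.unusedSectionVars false

namespace Pool.Agent.H703R3.QS

open Finset Pool.Agent.H722R2.AA Pool.Agent.H746R2.AA Pool.Agent.H703R2.AA Pool.Agent.H703R2.AA.Pr
  Pool.Agent.H703R2.AB Pool.Agent.H703R2.AC Pool.Agent.H703R3.QP

variable {κ ι W : Type*} [Fintype κ] [DecidableEq κ] [Fintype ι] [DecidableEq ι] [Fintype W]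
variable (P : Pr κ ι W)

/-- The threshold. -/
noncomputable def th (T : ℕ) (δ S : ℝ) : ℝ :=
  Real.exp (-(7900 * (Real.log (4 * T) * Real.log (1 / δ)) + 3 * Real.log (1 / S))) / (2 * T)

lemma light_num (T : ℕ) (hT : 1 ≤ T) (δ S : ℝ) (hδ0 : 1 / (4 * T) ≤ δ) (hδ1 : δ ≤ 1 / 2)
    (hS0 : 0 < S) (hS1 : S ≤ 1) (g : List W → ℝ)
    (hg0 : ∀ a, 0 ≤ g a) (hg1 : ∀ a, g a ≤ 1) (P : Pr κ ι W)
    (hl : ∀ t < T, ∀ k, mq P t k ≤ th T δ S) :
    Cr (1 - δ) (P.out T g) (P.out T g) ≤ S / 4 := by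
  obtain ⟨N, n, hN, hn, hsmall⟩ := numbers T hT δ S hδ0 hδ1 hS0 hS1
  have hT1 : (1 : ℝ) ≤ T := by exact_mod_cast hT
  have hδp : 0 < δ := lt_of_lt_of_le (by positivity) hδ0
  have h := light_s P T hT N hN n hn δ (S / (16 * (T : ℝ) ^ 2)) (th T δ S) hδp (by linarith)
    (by positivity) (by unfold th; positivity) hl hsmall g hg0 hg1
  refine h.trans (le_of_eq ?_)
  field_simp
  norm_num

lemma th_bound (T : ℕ) (hT : 1 ≤ T) (δ S : ℝ) (hδ0 : 1 / (4 * T) ≤ δ) (hδ1 : δ ≤ 1 / 2)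
    (hS0 : 0 < S) :
    S ^ 3 * Real.exp (-(8000 * (Real.log (4 * T) * Real.log (1 / δ)))) ≤ th T δ S / (8 * (T : ℝ) ^ 2) := by
  have hT1 : (1 : ℝ) ≤ T := by exact_mod_cast hT
  have hT0 : (0 : ℝ) < T := by linarith
  have hδp : 0 < δ := lt_of_lt_of_le (by positivity) hδ0
  have l2a := Real.log_two_gt_d9
  set Λ : ℝ := Real.log (4 * T) with hΛ
  set L : ℝ := Real.log (1 / δ) with hL
  have hL2 : (0.69 : ℝ) ≤ L := by
    have h1 : Real.log 2 ≤ L := Real.log_le_log (by norm_num) (by rw [le_div_iff₀ hδp]; linarith)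
    linarith
  have hΛ0 : 0 ≤ Λ := Real.log_nonneg (by linarith)
  have hΛA : 0.69 * Λ ≤ Λ * L := by nlinarith
  have hSe : Real.exp (-(3 * Real.log (1 / S))) = S ^ 3 := by
    rw [one_div, Real.log_inv, mul_neg, neg_neg,
      show (3 : ℝ) * Real.log S = ((3 : ℕ) : ℝ) * Real.log S by norm_num,
      Real.exp_nat_mul, Real.exp_log hS0]
  have e1 : th T δ S / (8 * (T : ℝ) ^ 2)
      = S ^ 3 * (Real.exp (-(7900 * (Λ * L))) / (16 * (T : ℝ) ^ 3)) := by
    unfold th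
    rw [neg_add, Real.exp_add, hSe]
    field_simp
    ring
  rw [e1]
  refine mul_le_mul_of_nonneg_left ?_ (by positivity)
  rw [le_div_iff₀ (by positivity)]
  have h8 : 16 * (T : ℝ) ^ 3 ≤ Real.exp (100 * (Λ * L)) := by
    have h1 : 64 * (T : ℝ) ^ 3 = Real.exp (3 * Λ) := by
      rw [show (3 : ℝ) * Λ = Λ + Λ + Λ by ring, Real.exp_add, Real.exp_add, hΛ,
        Real.exp_log (by positivity)]
      ring
    have h2 : Real.exp (3 * Λ) ≤ Real.exp (100 * (Λ * L)) := Real.exp_le_exp.2 (by linarith)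
    have h3 : 0 ≤ (T : ℝ) ^ 3 := by positivity
    linarith
  calc Real.exp (-(8000 * (Λ * L))) * (16 * (T : ℝ) ^ 3)
      ≤ Real.exp (-(8000 * (Λ * L))) * Real.exp (100 * (Λ * L)) :=
        mul_le_mul_of_nonneg_left h8 (Real.exp_pos _).le
    _ = _ := by rw [← Real.exp_add]; congr 1; ring

/-- The noise stable Aaronson-Ambainis inequality for all processes. -/
theorem infl (T : ℕ) (hT : 1 ≤ T) (δ : ℝ) (hδ0 : 1 / (4 * T) ≤ δ) (hδ1 : δ ≤ 1 / 2)
    (g : List W → ℝ) (hg0 : ∀ a, 0 ≤ g a)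
    (hg1 : ∀ a, g a ≤ 1) (hV : 0 < Cr (1 - δ) (P.out T g) (P.out T g)) :
    ∃ l, Cr (1 - δ) (P.out T g) (P.out T g) ^ 5
      ≤ Real.exp (8000 * (Real.log (4 * T) * Real.log (1 / δ)))
        * (Cov (P.out T g) (P.out T g) * Inf (P.out T g) l) := by
  have hT1 : (1 : ℝ) ≤ T := by exact_mod_cast hT
  have hT0 : (0 : ℝ) < T := by linarith
  have hδp : 0 < δ := lt_of_lt_of_le (by positivity) hδ0
  have hS1 := (Cr_le_Cov (by linarith : 0 ≤ 1 - δ) (by linarith) (P.out T g)).trans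
    (Cov_le_one P T g hg0 hg1)
  obtain ⟨l, hl⟩ := main P (by linarith : 0 ≤ 1 - δ) (by linarith)
    (th T δ (Cr (1 - δ) (P.out T g) (P.out T g))) (by unfold th; positivity)
    T g T hT le_rfl (Deg_out P T g) hV
    (fun P' h => light_num T hT δ _ hδ0 hδ1 hV hS1 g hg0 hg1 P' h)
  refine ⟨l, ?_⟩
  set S := Cr (1 - δ) (P.out T g) (P.out T g) with hS
  set V := Cov (P.out T g) (P.out T g) with hVd
  set J := Inf (P.out T g) l with hJ
  have h1 := th_bound T hT δ S hδ0 hδ1 hV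
  set q := Real.log (4 * T) * Real.log (1 / δ) with hq
  rw [le_div_iff₀ (by positivity)] at h1
  have h2 := mul_le_mul_of_nonneg_right h1 (sq_nonneg S)
  have h3 : 8 * (T : ℝ) ^ 2 * (S ^ 5 * Real.exp (-(8000 * q))) ≤ 8 * (T : ℝ) ^ 2 * (V * J) := by
    calc 8 * (T : ℝ) ^ 2 * (S ^ 5 * Real.exp (-(8000 * q)))
        = S ^ 3 * Real.exp (-(8000 * q)) * (8 * (T : ℝ) ^ 2) * S ^ 2 := by ring
      _ ≤ th T δ S * S ^ 2 := h2
      _ ≤ 8 * (T : ℝ) ^ 2 * V * J := hl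
      _ = _ := by ring
  have h4 := le_of_mul_le_mul_left h3 (by positivity)
  have h5 := mul_le_mul_of_nonneg_left h4 (Real.exp_pos (8000 * q)).le
  have e : Real.exp (8000 * q) * (S ^ 5 * Real.exp (-(8000 * q))) = S ^ 5 := by
    calc _ = (Real.exp (8000 * q) * Real.exp (-(8000 * q))) * S ^ 5 := by ring
      _ = _ := by rw [← Real.exp_add, add_neg_cancel, Real.exp_zero, one_mul]
  rw [e] at h5
  exact h5

/-- The noise stable bit fixing form for all processes. -/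
theorem bits (T : ℕ) (hT : 1 ≤ T) (δ : ℝ) (hδ0 : 1 / (4 * T) ≤ δ) (hδ1 : δ ≤ 1 / 2)
    (g : List W → ℝ) (hg0 : ∀ a, 0 ≤ g a)
    (hg1 : ∀ a, g a ≤ 1) (hV : 0 < Cr (1 - δ) (P.out T g) (P.out T g)) :
    ∃ (S : Finset κ) (a : κ → ℤˣ),
      (S.card : ℝ) ≤ Real.exp (8000 * (Real.log (4 * T) * Real.log (1 / δ)))
        / Cr (1 - δ) (P.out T g) (P.out T g) ^ 4 ∧
      Cr (1 - δ) (P.out T g) (P.out T g) / 2
        ≤ (Ex (fun x => P.out T g (S.piecewise a x)) - Ex (P.out T g)) ^ 2 := by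
  have hT1 : (1 : ℝ) ≤ T := by exact_mod_cast hT
  have hT0 : (0 : ℝ) < T := by linarith
  have hδp : 0 < δ := lt_of_lt_of_le (by positivity) hδ0
  have hS1 := (Cr_le_Cov (by linarith : 0 ≤ 1 - δ) (by linarith) (P.out T g)).trans
    (Cov_le_one P T g hg0 hg1)
  have hth : 0 < th T δ (Cr (1 - δ) (P.out T g) (P.out T g)) := by unfold th; positivity
  obtain ⟨S, a, hS, ha⟩ := fix P (by linarith : 0 ≤ 1 - δ) (by linarith)
    (th T δ (Cr (1 - δ) (P.out T g) (P.out T g))) hth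
    T hT g hg0 hg1 hV (fun P' h => light_num T hT δ _ hδ0 hδ1 hV hS1 g hg0 hg1 P' h)
  refine ⟨S, a, hS.trans ?_, ha⟩
  set V := Cr (1 - δ) (P.out T g) (P.out T g) with hV'
  have h1 := th_bound T hT δ V hδ0 hδ1 hV
  rw [le_div_iff₀ (by positivity)] at h1
  rw [div_le_div_iff₀ (by positivity) (by positivity)]
  set q := Real.log (4 * T) * Real.log (1 / δ) with hq
  have h2 : Real.exp (8000 * q) * Real.exp (-(8000 * q)) = 1 := by
    rw [← Real.exp_add, add_neg_cancel, Real.exp_zero]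
  have h3 := mul_le_mul_of_nonneg_left h1 (mul_nonneg (Real.exp_pos (8000 * q)).le hV.le)
  have h4 : (T : ℝ) ≤ (T : ℝ) ^ 2 := by nlinarith
  calc 4 * (T : ℝ) * V ^ 4 ≤ 8 * (T : ℝ) ^ 2 * V ^ 4 := by
        refine mul_le_mul_of_nonneg_right (by linarith) (by positivity)
    _ = (Real.exp (8000 * q) * Real.exp (-(8000 * q))) * (V * V ^ 3 * (8 * (T : ℝ) ^ 2)) := by
        rw [h2]; ring
    _ = Real.exp (8000 * q) * V * (V ^ 3 * Real.exp (-(8000 * q)) * (8 * (T : ℝ) ^ 2)) := by ring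
    _ ≤ Real.exp (8000 * q) * V * th T δ V := h3
    _ = _ := by ring

/-! ### Low level weights -/

/-- The Fourier weight on the levels from `1` to `k`. -/
noncomputable def lw (k : ℕ) (F : (κ → ℤˣ) → ℝ) : ℝ :=
  ∑ S ∈ Finset.univ.filter (fun S : Finset κ => 1 ≤ S.card ∧ S.card ≤ k), fc F S ^ 2

lemma lw_le_Cr (k : ℕ) (hk : 1 ≤ k) (F : (κ → ℤˣ) → ℝ) :
    lw k F / 2 ≤ Cr (1 - 1 / (2 * k)) F F := by
  have hk1 : (1 : ℝ) ≤ k := by exact_mod_cast hk
  have hd1 : 1 / (2 * (k : ℝ)) ≤ 1 / 2 := by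
    rw [div_le_div_iff₀ (by positivity) (by norm_num)]; linarith
  have hd0 : 0 < 1 / (2 * (k : ℝ)) := by positivity
  have hb := one_add_mul_le_pow (by linarith : (-2 : ℝ) ≤ -(1 / (2 * (k : ℝ)))) k
  have e1 : 1 + (k : ℝ) * -(1 / (2 * (k : ℝ))) = 1 / 2 := by
    field_simp
    norm_num
  rw [e1] at hb
  have e2 : (1 + -(1 / (2 * (k : ℝ)))) = 1 - 1 / (2 * k) := by ring
  rw [e2] at hb
  rw [Cr_fourier]
  unfold lw
  rw [Finset.sum_div]
  have hsub : Finset.univ.filter (fun S : Finset κ => 1 ≤ S.card ∧ S.card ≤ k)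
      ⊆ Finset.univ.erase (∅ : Finset κ) := by
    intro S hS
    rw [Finset.mem_filter] at hS
    rw [Finset.mem_erase]
    refine ⟨?_, Finset.mem_univ _⟩
    rintro rfl
    simp at hS
  refine le_trans ?_ (Finset.sum_le_sum_of_subset_of_nonneg hsub fun S _ _ =>
    mul_nonneg (pow_nonneg (by linarith) _) (mul_self_nonneg _))
  refine Finset.sum_le_sum fun S hS => ?_
  rw [Finset.mem_filter] at hS
  have h1 : (1 - 1 / (2 * (k : ℝ))) ^ k ≤ (1 - 1 / (2 * (k : ℝ))) ^ S.card :=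
    pow_le_pow_of_le_one (by linarith) (by linarith) hS.2.2
  have h2 := mul_le_mul_of_nonneg_right (hb.trans h1) (mul_self_nonneg (fc F S))
  rw [sq]
  linarith

lemma lw_eq_Cov (k d : ℕ) (F : (κ → ℤˣ) → ℝ) (hF : Deg d F) (hk : d ≤ k) :
    lw k F = Cov F F := by
  rw [Cov_eq_Cr, Cr_fourier]
  unfold lw
  simp_rw [one_pow, one_mul, ← sq]
  symm
  rw [← Finset.sum_filter_add_sum_filter_not (Finset.univ.erase (∅ : Finset κ))
    (fun S : Finset κ => S.card ≤ k)]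
  have h1 : ∑ S ∈ (Finset.univ.erase (∅ : Finset κ)).filter (fun S : Finset κ => ¬ S.card ≤ k),
      fc F S ^ 2 = 0 := by
    refine Finset.sum_eq_zero fun S hS => ?_
    rw [Finset.mem_filter] at hS
    rw [hF S (by have := hS.2; omega)]
    norm_num
  rw [h1, add_zero]
  refine Finset.sum_congr ?_ fun _ _ => rfl
  ext S
  rw [Finset.mem_filter, Finset.mem_filter, Finset.mem_erase, ← Finset.card_pos.trans
    Finset.nonempty_iff_ne_empty]
  constructor
  · rintro ⟨⟨h1, _⟩, h2⟩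
    exact ⟨Finset.mem_univ _, h1, h2⟩
  · rintro ⟨_, h1, h2⟩
    exact ⟨⟨h1, Finset.mem_univ _⟩, h2⟩

lemma lw_le_Cov (k : ℕ) (F : (κ → ℤˣ) → ℝ) : lw k F ≤ Cov F F := by
  rw [Cov_eq_Cr, Cr_fourier]
  unfold lw
  simp_rw [one_pow, one_mul, ← sq]
  refine Finset.sum_le_sum_of_subset_of_nonneg ?_ fun _ _ _ => sq_nonneg _
  intro S hS
  rw [Finset.mem_filter] at hS
  rw [Finset.mem_erase]
  refine ⟨?_, Finset.mem_univ _⟩
  rintro rfl
  simp at hS

lemma log_facts (T k : ℕ) (hT : 1 ≤ T) (hk : 1 ≤ k) :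
    0.95 ≤ Real.log (4 * T) * Real.log (2 * k) ∧ 0 ≤ Real.log (4 * T) := by
  have hT1 : (1 : ℝ) ≤ T := by exact_mod_cast hT
  have hk1 : (1 : ℝ) ≤ k := by exact_mod_cast hk
  have l2a := Real.log_two_gt_d9
  have h1 : (1.386 : ℝ) ≤ Real.log (4 * T) := by
    have h1 : Real.log (2 ^ 2) ≤ Real.log (4 * T) := Real.log_le_log (by norm_num) (by linarith)
    rw [Real.log_pow] at h1
    push_cast at h1
    linarith
  have h2 : (0.693 : ℝ) ≤ Real.log (2 * k) := by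
    have h1 : Real.log 2 ≤ Real.log (2 * k) := Real.log_le_log (by norm_num) (by linarith)
    linarith
  constructor
  · nlinarith
  · linarith

/-- The influence inequality for the weight on the levels up to `k`, for small `k`. -/
lemma infl_level_aux (T : ℕ) (hT : 1 ≤ T) (k : ℕ) (hk : 1 ≤ k) (hkT : k ≤ 2 * T)
    (g : List W → ℝ) (hg0 : ∀ a, 0 ≤ g a) (hg1 : ∀ a, g a ≤ 1) (hV : 0 < lw k (P.out T g)) :
    ∃ l, lw k (P.out T g) ^ 5 ≤ Real.exp (8010 * (Real.log (4 * T) * Real.log (2 * k)))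
      * (Cov (P.out T g) (P.out T g) * Inf (P.out T g) l) := by
  have hT1 : (1 : ℝ) ≤ T := by exact_mod_cast hT
  have hk1 : (1 : ℝ) ≤ k := by exact_mod_cast hk
  have hkT' : (k : ℝ) ≤ 2 * T := by exact_mod_cast hkT
  have h1 := lw_le_Cr k hk (P.out T g)
  obtain ⟨l, hl⟩ := infl P T hT (1 / (2 * k))
    (by rw [div_le_div_iff₀ (by positivity) (by positivity)]; linarith)
    (by rw [div_le_div_iff₀ (by positivity) (by norm_num)]; linarith) g hg0 hg1 (by linarith)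
  refine ⟨l, ?_⟩
  rw [one_div_one_div] at hl
  obtain ⟨hA, -⟩ := log_facts T k hT hk
  set q := Real.log (4 * T) * Real.log (2 * k) with hq
  set V := Cov (P.out T g) (P.out T g) with hVd
  set J := Inf (P.out T g) l with hJ
  have hV0 : 0 ≤ V := Cov_self_nonneg _
  have hJ0 : 0 ≤ J := Inf_nonneg _ _
  have h2 : (lw k (P.out T g) / 2) ^ 5 ≤ Real.exp (8000 * q) * (V * J) :=
    (pow_le_pow_left₀ (by positivity) h1 5).trans hl
  have h32 : (32 : ℝ) ≤ Real.exp (10 * q) := by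
    have h3 : (32 : ℝ) = Real.exp (5 * Real.log 2) := by
      rw [show (5 : ℝ) * Real.log 2 = ((5 : ℕ) : ℝ) * Real.log 2 by norm_num, Real.exp_nat_mul,
        Real.exp_log (by norm_num)]
      norm_num
    rw [h3]
    refine Real.exp_le_exp.2 ?_
    have := Real.log_two_lt_d9
    linarith
  calc lw k (P.out T g) ^ 5 = 32 * (lw k (P.out T g) / 2) ^ 5 := by ring
    _ ≤ Real.exp (10 * q) * (Real.exp (8000 * q) * (V * J)) :=
        mul_le_mul h32 h2 (by positivity) (Real.exp_pos _).le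
    _ = _ := by rw [← mul_assoc, ← Real.exp_add]; congr 2; ring

/-- The influence inequality for the weight on the levels up to `k`. -/
theorem infl_level (T : ℕ) (hT : 1 ≤ T) (k : ℕ) (hk : 1 ≤ k)
    (g : List W → ℝ) (hg0 : ∀ a, 0 ≤ g a) (hg1 : ∀ a, g a ≤ 1) (hV : 0 < lw k (P.out T g)) :
    ∃ l, lw k (P.out T g) ^ 5 ≤ Real.exp (8010 * (Real.log (4 * T) * Real.log (2 * k)))
      * (Cov (P.out T g) (P.out T g) * Inf (P.out T g) l) := by
  rcases le_or_gt k (2 * T) with h | h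
  · exact infl_level_aux P T hT k hk h g hg0 hg1 hV
  · have e : lw k (P.out T g) = lw (2 * T) (P.out T g) := by
      rw [lw_eq_Cov k (2 * T) _ (Deg_out P T g) h.le, lw_eq_Cov (2 * T) (2 * T) _ (Deg_out P T g) le_rfl]
    rw [e] at hV ⊢
    obtain ⟨l, hl⟩ := infl_level_aux P T hT (2 * T) (by omega) le_rfl g hg0 hg1 hV
    refine ⟨l, hl.trans ?_⟩
    have hT1 : (1 : ℝ) ≤ T := by exact_mod_cast hT
    have hkT : ((2 * T : ℕ) : ℝ) ≤ k := by exact_mod_cast h.le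
    have h1 : Real.log (2 * ((2 * T : ℕ) : ℝ)) ≤ Real.log (2 * k) :=
      Real.log_le_log (by push_cast; positivity) (by linarith)
    have h2 := mul_le_mul_of_nonneg_left h1 (log_facts T k hT hk).2
    exact mul_le_mul_of_nonneg_right (Real.exp_le_exp.2 (by linarith))
      (mul_nonneg (Cov_self_nonneg _) (Inf_nonneg _ _))

/-- The bit fixing form for the weight on the levels up to `k`, for small `k`. -/
lemma bits_level_aux (T : ℕ) (hT : 1 ≤ T) (k : ℕ) (hk : 1 ≤ k) (hkT : k ≤ 2 * T)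
    (g : List W → ℝ) (hg0 : ∀ a, 0 ≤ g a) (hg1 : ∀ a, g a ≤ 1) (hV : 0 < lw k (P.out T g)) :
    ∃ (S : Finset κ) (a : κ → ℤˣ),
      (S.card : ℝ) ≤ Real.exp (8010 * (Real.log (4 * T) * Real.log (2 * k)))
        / lw k (P.out T g) ^ 4 ∧
      lw k (P.out T g) / 4
        ≤ (Ex (fun x => P.out T g (S.piecewise a x)) - Ex (P.out T g)) ^ 2 := by
  have hT1 : (1 : ℝ) ≤ T := by exact_mod_cast hT
  have hk1 : (1 : ℝ) ≤ k := by exact_mod_cast hk
  have hkT' : (k : ℝ) ≤ 2 * T := by exact_mod_cast hkT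
  have h1 := lw_le_Cr k hk (P.out T g)
  obtain ⟨S, a, hS, ha⟩ := bits P T hT (1 / (2 * k))
    (by rw [div_le_div_iff₀ (by positivity) (by positivity)]; linarith)
    (by rw [div_le_div_iff₀ (by positivity) (by norm_num)]; linarith) g hg0 hg1 (by linarith)
  refine ⟨S, a, hS.trans ?_, by linarith⟩
  rw [one_div_one_div]
  obtain ⟨hA, -⟩ := log_facts T k hT hk
  set q := Real.log (4 * T) * Real.log (2 * k) with hq
  have h2 : (lw k (P.out T g) / 2) ^ 4 ≤ Cr (1 - 1 / (2 * k)) (P.out T g) (P.out T g) ^ 4 :=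
    pow_le_pow_left₀ (by positivity) h1 4
  have h16 : (16 : ℝ) ≤ Real.exp (10 * q) := by
    have h3 : (16 : ℝ) = Real.exp (4 * Real.log 2) := by
      rw [show (4 : ℝ) * Real.log 2 = ((4 : ℕ) : ℝ) * Real.log 2 by norm_num, Real.exp_nat_mul,
        Real.exp_log (by norm_num)]
      norm_num
    rw [h3]
    refine Real.exp_le_exp.2 ?_
    have := Real.log_two_lt_d9
    linarith
  refine (div_le_div_of_nonneg_left (Real.exp_pos _).le (by positivity) h2).trans ?_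
  rw [div_le_div_iff₀ (by positivity) (by positivity)]
  calc Real.exp (8000 * q) * lw k (P.out T g) ^ 4
      = 16 * Real.exp (8000 * q) * (lw k (P.out T g) / 2) ^ 4 := by ring
    _ ≤ Real.exp (10 * q) * Real.exp (8000 * q) * (lw k (P.out T g) / 2) ^ 4 := by
        refine mul_le_mul_of_nonneg_right ?_ (by positivity)
        exact mul_le_mul_of_nonneg_right h16 (Real.exp_pos _).le
    _ = _ := by rw [← Real.exp_add]; congr 2; ring

/-- The bit fixing form for the weight on the levels up to `k`. -/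
theorem bits_level (T : ℕ) (hT : 1 ≤ T) (k : ℕ) (hk : 1 ≤ k)
    (g : List W → ℝ) (hg0 : ∀ a, 0 ≤ g a) (hg1 : ∀ a, g a ≤ 1) (hV : 0 < lw k (P.out T g)) :
    ∃ (S : Finset κ) (a : κ → ℤˣ),
      (S.card : ℝ) ≤ Real.exp (8010 * (Real.log (4 * T) * Real.log (2 * k)))
        / lw k (P.out T g) ^ 4 ∧
      lw k (P.out T g) / 4
        ≤ (Ex (fun x => P.out T g (S.piecewise a x)) - Ex (P.out T g)) ^ 2 := by
  rcases le_or_gt k (2 * T) with h | h
  · exact bits_level_aux P T hT k hk h g hg0 hg1 hV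
  · have e : lw k (P.out T g) = lw (2 * T) (P.out T g) := by
      rw [lw_eq_Cov k (2 * T) _ (Deg_out P T g) h.le, lw_eq_Cov (2 * T) (2 * T) _ (Deg_out P T g) le_rfl]
    rw [e] at hV ⊢
    obtain ⟨S, a, hS, ha⟩ := bits_level_aux P T hT (2 * T) (by omega) le_rfl g hg0 hg1 hV
    refine ⟨S, a, hS.trans ?_, ha⟩
    have hT1 : (1 : ℝ) ≤ T := by exact_mod_cast hT
    have hkT : ((2 * T : ℕ) : ℝ) ≤ k := by exact_mod_cast h.le
    have h1 : Real.log (2 * ((2 * T : ℕ) : ℝ)) ≤ Real.log (2 * k) :=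
      Real.log_le_log (by push_cast; positivity) (by linarith)
    have h2 := mul_le_mul_of_nonneg_left h1 (log_facts T k hT hk).2
    exact div_le_div_of_nonneg_right (Real.exp_le_exp.2 (by linarith)) (by positivity)

end Pool.Agent.H703R3.QS
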