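import Pool.Agent.H703R3.QP.Flow

/-!
# Noise stable covariances
-/

set_option autoImplicit false
set_option linter.unusedSectionVars false

namespace Pool.Agent.H703R3.QS

open Finset Pool.Agent.H722R2.AA Pool.Agent.H746R2.AA Pool.Agent.H703R2.AA Pool.Agent.H703R2.AA.Pr
  Pool.Agent.H703R2.AB Pool.Agent.H703R2.AC Pool.Agent.H703R3.QP

variable {κ : Type*} [Fintype κ] [DecidableEq κ]

lemma wt_expand (r : ℝ) (x y : κ → ℤˣ) :
    Pool.Agent.H703R2.AA.wt r x y = (∑ S : Finset κ, r ^ S.card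
      * ((∏ i ∈ S, sg x i) * ∏ i ∈ S, sg y i)) / (2 ^ Fintype.card κ * 2 ^ Fintype.card κ) := by
  unfold Pool.Agent.H703R2.AA.wt
  rw [Finset.prod_div_distrib, Finset.prod_const, Finset.card_univ, Finset.prod_one_add,
    Finset.powerset_univ, ← mul_pow]
  have h4 : (2 : ℝ) * 2 = 4 := by norm_num
  rw [h4]
  congr 1
  refine Finset.sum_congr rfl fun S _ => ?_
  rw [Finset.prod_mul_distrib, Finset.prod_mul_distrib, Finset.prod_const]

/-- The Fourier expansion of the correlation. -/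
lemma PE_fourier (r : ℝ) (F G : (κ → ℤˣ) → ℝ) :
    PE r (fun x y => F x * G y) = ∑ S : Finset κ, r ^ S.card * (fc F S * fc G S) := by
  unfold PE
  have e : ∀ S : Finset κ, r ^ S.card * (fc F S * fc G S)
      = ∑ x : κ → ℤˣ, ∑ y : κ → ℤˣ, r ^ S.card * ((∏ i ∈ S, sg x i) * ∏ i ∈ S, sg y i)
        / (2 ^ Fintype.card κ * 2 ^ Fintype.card κ) * (F x * G y) := by
    intro S
    rw [fc_eq_Ex, fc_eq_Ex]
    unfold Ex
    rw [div_mul_div_comm, Finset.sum_mul_sum, ← mul_div_assoc, Finset.mul_sum, Finset.sum_div]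
    refine Finset.sum_congr rfl fun x _ => ?_
    rw [Finset.mul_sum, Finset.sum_div]
    refine Finset.sum_congr rfl fun y _ => ?_
    ring
  rw [Finset.sum_congr rfl fun S _ => e S]
  symm
  rw [Finset.sum_comm]
  refine Finset.sum_congr rfl fun x _ => ?_
  rw [Finset.sum_comm]
  refine Finset.sum_congr rfl fun y _ => ?_
  rw [wt_expand, Finset.sum_div, Finset.sum_mul]

/-- The noise stable covariance. -/
noncomputable def Cr (r : ℝ) (F G : (κ → ℤˣ) → ℝ) : ℝ :=
  PE r (fun x y => F x * G y) - Ex F * Ex G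

lemma Cr_fourier (r : ℝ) (F G : (κ → ℤˣ) → ℝ) :
    Cr r F G = ∑ S ∈ Finset.univ.erase (∅ : Finset κ), r ^ S.card * (fc F S * fc G S) := by
  unfold Cr
  rw [PE_fourier, ← Finset.add_sum_erase Finset.univ _ (Finset.mem_univ (∅ : Finset κ)),
    fc_empty, fc_empty, Finset.card_empty, pow_zero, one_mul]
  ring

lemma Cr_self_nonneg {r : ℝ} (h0 : 0 ≤ r) (F : (κ → ℤˣ) → ℝ) : 0 ≤ Cr r F F := by
  rw [Cr_fourier]
  exact Finset.sum_nonneg fun S _ => mul_nonneg (pow_nonneg h0 _) (mul_self_nonneg _)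

lemma abs_Cr_le {r : ℝ} (h0 : 0 ≤ r) (F G : (κ → ℤˣ) → ℝ) :
    |Cr r F G| ≤ Real.sqrt (Cr r F F) * Real.sqrt (Cr r G G) := by
  rw [← Real.sqrt_mul (Cr_self_nonneg h0 F)]
  refine Real.abs_le_sqrt ?_
  rw [Cr_fourier, Cr_fourier, Cr_fourier]
  have e1 : ∀ H K : (κ → ℤˣ) → ℝ, ∑ S ∈ Finset.univ.erase (∅ : Finset κ), r ^ S.card * (fc H S * fc K S)
      = ∑ S ∈ Finset.univ.erase (∅ : Finset κ),
        (Real.sqrt (r ^ S.card) * fc H S) * (Real.sqrt (r ^ S.card) * fc K S) := by
    intro H K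
    refine Finset.sum_congr rfl fun S _ => ?_
    have := Real.mul_self_sqrt (pow_nonneg h0 S.card)
    calc r ^ S.card * (fc H S * fc K S)
        = (Real.sqrt (r ^ S.card) * Real.sqrt (r ^ S.card)) * (fc H S * fc K S) := by rw [this]
      _ = _ := by ring
  rw [e1, e1, e1]
  simp_rw [← sq]
  exact Finset.sum_mul_sq_le_sq_mul_sq _ _ _

lemma PE_self_nonneg' {r : ℝ} (h0 : 0 ≤ r) (F : (κ → ℤˣ) → ℝ) :
    0 ≤ PE r (fun x y => F x * F y) := by
  rw [PE_fourier]
  exact Finset.sum_nonneg fun S _ => mul_nonneg (pow_nonneg h0 _) (mul_self_nonneg _)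

lemma PE_self_le {r : ℝ} (h0 : 0 ≤ r) (h1 : r ≤ 1) (F : (κ → ℤˣ) → ℝ) :
    PE r (fun x y => F x * F y) ≤ Ex (fun x => F x ^ 2) := by
  rw [PE_fourier, parseval_sq]
  refine Finset.sum_le_sum fun S _ => ?_
  rw [sq]
  exact mul_le_of_le_one_left (mul_self_nonneg _) (pow_le_one₀ h0 h1)

lemma abs_PE_le {r : ℝ} (h0 : 0 ≤ r) (h1 : r ≤ 1) (F G : (κ → ℤˣ) → ℝ) :
    |PE r (fun x y => F x * G y)| ≤ Real.sqrt (Ex (fun x => F x ^ 2)) * Real.sqrt (Ex (fun x => G x ^ 2)) := by
  have hb : |PE r (fun x y => F x * G y)|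
      ≤ Real.sqrt (PE r (fun x y => F x * F y)) * Real.sqrt (PE r (fun x y => G x * G y)) := by
    rw [← Real.sqrt_mul (PE_self_nonneg' h0 F)]
    refine Real.abs_le_sqrt ?_
    rw [PE_fourier, PE_fourier, PE_fourier]
    have e1 : ∀ H K : (κ → ℤˣ) → ℝ, ∑ S : Finset κ, r ^ S.card * (fc H S * fc K S)
        = ∑ S : Finset κ,
          (Real.sqrt (r ^ S.card) * fc H S) * (Real.sqrt (r ^ S.card) * fc K S) := by
      intro H K
      refine Finset.sum_congr rfl fun S _ => ?_
      have := Real.mul_self_sqrt (pow_nonneg h0 S.card)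
      calc r ^ S.card * (fc H S * fc K S)
          = (Real.sqrt (r ^ S.card) * Real.sqrt (r ^ S.card)) * (fc H S * fc K S) := by rw [this]
        _ = _ := by ring
    rw [e1, e1, e1]
    simp_rw [← sq]
    exact Finset.sum_mul_sq_le_sq_mul_sq _ _ _
  refine hb.trans ?_
  exact mul_le_mul (Real.sqrt_le_sqrt (PE_self_le h0 h1 F)) (Real.sqrt_le_sqrt (PE_self_le h0 h1 G))
    (Real.sqrt_nonneg _) (Real.sqrt_nonneg _)

lemma Cr_le_Cov {r : ℝ} (h0 : 0 ≤ r) (h1 : r ≤ 1) (F : (κ → ℤˣ) → ℝ) : Cr r F F ≤ Cov F F := by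
  unfold Cr Cov
  have := PE_self_le h0 h1 F
  simp_rw [sq] at this
  linarith

lemma Cov_eq_Cr (F G : (κ → ℤˣ) → ℝ) : Cov F G = Cr 1 F G := by
  unfold Cr Cov
  rw [PE_one]

/-- Low degree functions are noise stable. -/
lemma Cr_ge_deg {r : ℝ} (h0 : 0 ≤ r) (h1 : r ≤ 1) (d : ℕ) (F : (κ → ℤˣ) → ℝ) (hF : Deg d F) :
    r ^ d * Cov F F ≤ Cr r F F := by
  rw [Cov_eq_Cr, Cr_fourier, Cr_fourier, Finset.mul_sum]
  refine Finset.sum_le_sum fun S _ => ?_
  rw [one_pow, one_mul]
  by_cases h : d < S.card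
  · rw [hF S h]; simp
  · push Not at h
    exact mul_le_mul_of_nonneg_right (pow_le_pow_of_le_one h0 h1 h) (mul_self_nonneg _)

/-- The average over a coordinate. -/
noncomputable def av (F : (κ → ℤˣ) → ℝ) (k : κ) (x : κ → ℤˣ) : ℝ :=
  (F (Function.update x k 1) + F (Function.update x k (-1))) / 2

lemma av_update (F : (κ → ℤˣ) → ℝ) (k : κ) (x : κ → ℤˣ) (u : ℤˣ) :
    av F k (Function.update x k u) = av F k x := by
  unfold av
  rw [Function.update_idem, Function.update_idem]

lemma av_fl (F : (κ → ℤˣ) → ℝ) (k : κ) (x : κ → ℤˣ) : av F k (fl k x) = av F k x :=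
  av_update F k x _

lemma eq_av_add (F : (κ → ℤˣ) → ℝ) (k : κ) (x : κ → ℤˣ) :
    F x = av F k x + sg x k * D F k x := by
  unfold av D sg
  rcases Int.units_eq_one_or (x k) with h2 | h2
  · have h3 : Function.update x k 1 = x := by rw [← h2, Function.update_eq_self]
    rw [h3, h2]; push_cast; ring
  · have h3 : Function.update x k (-1) = x := by rw [← h2, Function.update_eq_self]
    rw [h3, h2]; push_cast; ring

lemma fr_eq (F : (κ → ℤˣ) → ℝ) (k : κ) (s : ℤˣ) (x : κ → ℤˣ) :
    fr k s F x = av F k x + ((s : ℤ) : ℝ) * D F k x := by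
  unfold fr av D
  rcases Int.units_eq_one_or s with h | h <;> rw [h] <;> push_cast <;> ring

/-- Decomposition of the correlation with respect to a coordinate. -/
lemma PE_decomp (r : ℝ) (F G : (κ → ℤˣ) → ℝ) (k : κ) :
    PE r (fun x y => F x * G y)
      = PE r (fun x y => av F k x * av G k y) + r * PE r (fun x y => D F k x * D G k y) := by
  have e : PE r (fun x y => F x * G y)
      = PE r (fun x y => av F k x * av G k y) + PE r (fun x y => sg x k * (D F k x * av G k y))
        + PE r (fun x y => sg y k * (av F k x * D G k y))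
        + PE r (fun x y => sg x k * sg y k * (D F k x * D G k y)) := by
    rw [← PE_add, ← PE_add, ← PE_add]
    refine PE_congr fun x y => ?_
    rw [eq_av_add F k x, eq_av_add G k y]
    ring
  rw [e, PE_sg_left r k (fun x y => D F k x * av G k y) (fun x y => by rw [D_fl_eq, av_fl]),
    PE_sg_right r k (fun x y => av F k x * D G k y) (fun x y => by rw [D_fl_eq, av_fl]),
    PE_sg_sg r k (fun x y => D F k x * D G k y) (fun x y => by rw [D_fl_eq])]
  ring

lemma PE_av_left (r : ℝ) (F G : (κ → ℤˣ) → ℝ) (k : κ) :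
    PE r (fun x y => av F k x * G y) = PE r (fun x y => av F k x * av G k y) := by
  rw [PE_decomp r (av F k) G k]
  have e1 : ∀ x, D (av F k) k x = 0 := by
    intro x
    unfold D
    rw [av_update, av_update]; ring
  have e2 : ∀ x, av (av F k) k x = av F k x := by
    intro x
    change (av F k (Function.update x k 1) + av F k (Function.update x k (-1))) / 2 = _
    rw [av_update, av_update]; ring
  have e3 : PE r (fun x y => D (av F k) k x * D G k y) = 0 := by
    have : PE r (fun x y => D (av F k) k x * D G k y) = PE (κ := κ) r (fun _ _ => 0) :=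
      PE_congr fun x y => by rw [e1]; ring
    rw [this, PE_const]
  rw [e3, mul_zero, add_zero]
  exact PE_congr fun x y => by rw [e2]

/-- Decomposition of the noise stable covariance with respect to a coordinate. -/
lemma Cr_split (r : ℝ) (F G : (κ → ℤˣ) → ℝ) (k : κ) :
    Cr r F G = (Cr r (fr k 1 F) G + Cr r (fr k (-1) F) G) / 2
      + r * PE r (fun x y => D F k x * D G k y) := by
  have hE := Ex_split k F
  have h1 : PE r (fun x y => fr k 1 F x * G y) + PE r (fun x y => fr k (-1) F x * G y)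
      = 2 * PE r (fun x y => av F k x * G y) := by
    rw [← PE_add, ← PE_mul_left]
    refine PE_congr fun x y => ?_
    rw [fr_eq, fr_eq]
    push_cast
    ring
  unfold Cr
  rw [PE_decomp r F G k, ← PE_av_left, hE]
  linarith

/-- Fixing a coordinate increases the noise stable second moment on average. -/
lemma PE_fr_le {r : ℝ} (h0 : 0 ≤ r) (h1 : r ≤ 1) (F : (κ → ℤˣ) → ℝ) (k : κ) :
    PE r (fun x y => F x * F y)
      ≤ (PE r (fun x y => fr k 1 F x * fr k 1 F y)
        + PE r (fun x y => fr k (-1) F x * fr k (-1) F y)) / 2 := by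
  have e : PE r (fun x y => fr k 1 F x * fr k 1 F y)
        + PE r (fun x y => fr k (-1) F x * fr k (-1) F y)
      = 2 * PE r (fun x y => av F k x * av F k y) + 2 * PE r (fun x y => D F k x * D F k y) := by
    rw [← PE_mul_left, ← PE_mul_left, ← PE_add, ← PE_add]
    refine PE_congr fun x y => ?_
    rw [fr_eq, fr_eq, fr_eq, fr_eq]
    push_cast
    ring
  rw [e, PE_decomp r F F k]
  have h2 := PE_self_nonneg' h0 (D F k)
  have h3 : r * PE r (fun x y => D F k x * D F k y) ≤ PE r (fun x y => D F k x * D F k y) :=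
    mul_le_of_le_one_left h2 h1
  linarith

lemma Ex_sub_const (F : (κ → ℤˣ) → ℝ) (u : ℝ) : Ex (fun x => F x - u) = Ex F - u := by
  rw [Ex_sub, Ex_const]

/-- The second moment around a point. -/
lemma PE_sub (r : ℝ) (F : (κ → ℤˣ) → ℝ) (u : ℝ) :
    PE r (fun x y => (F x - u) * (F y - u)) = Cr r F F + (Ex F - u) ^ 2 := by
  have e : PE r (fun x y => (F x - u) * (F y - u))
      = PE r (fun x y => F x * F y) + (-u) * PE r (fun x _ => F x) + (-u) * PE r (fun _ y => F y)
        + PE (κ := κ) r (fun _ _ => u ^ 2) := by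
    rw [← PE_mul_left, ← PE_mul_left, ← PE_add, ← PE_add, ← PE_add]
    exact PE_congr fun x y => by ring
  rw [e, PE_left, PE_right, PE_const]
  unfold Cr
  ring

end Pool.Agent.H703R3.QS
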