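import Pool.Agent.H703R3.QP.LightQ
import Pool.Agent.H703R3.QS.Stab

/-!
# The noise stable part of a light quantum algorithm
-/

set_option autoImplicit false
set_option linter.unusedSectionVars false

namespace Pool.Agent.H703R3.QS

open Finset Pool.Agent.H722R2.AA Pool.Agent.H746R2.AA Pool.Agent.H703R2.AA Pool.Agent.H703R2.AA.Pr
  Pool.Agent.H703R2.AB Pool.Agent.H703R2.AC Pool.Agent.H703R3.QP

variable {κ ι W : Type*} [Fintype κ] [DecidableEq κ] [Fintype ι] [DecidableEq ι] [Fintype W]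
variable (P : Pr κ ι W)

/-- The light lemma for the noise stable part. -/
theorem light_s (T : ℕ) (hT : 1 ≤ T) (N : ℕ) (hN : 1 ≤ N) (n : ℕ)
    (hn : 640 * Real.log (50 * T * N) + 161 ≤ n) (δ ε θ : ℝ) (hδ0 : 0 < δ) (hδ1 : δ ≤ 1)
    (hε : 0 < ε) (hθ : 0 ≤ θ) (hlight : ∀ t < T, ∀ k, Ex (pk P t k) ≤ θ)
    (hsmall : T * θ + 700 * N / 2 ^ N * T ≤ δ ^ n * ε ^ 2)
    (g : List W → ℝ) (hg0 : ∀ a, 0 ≤ g a) (hg1 : ∀ a, g a ≤ 1) :
    Cr (1 - δ) (P.out T g) (P.out T g) ≤ 4 * (T : ℝ) ^ 2 * ε := by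
  set φ : ℝ → ℝ := Ft P (bg g) T T with hφ
  have hφ1 : ∀ r, 0 ≤ r → r ≤ 1 → φ r ≤ 1 := by
    intro r h0 h1
    rw [hφ]
    unfold Ft
    have : PE r (fun x y => ∑ k, tk P (bg g) T k x * tk P (bg g) T k y) ≤ PE (κ := κ) r (fun _ _ => 1) := by
      refine PE_mono h0 h1 fun x y => ?_
      simp only [Finset.univ_unique, Finset.sum_singleton]
      rw [tk_bg P g hg0]
      exact mul_le_one₀ (P.out_le T g hg1 x) (P.out_nonneg T g hg0 y) (P.out_le T g hg1 y)
    rwa [PE_const] at this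
  have hφd : ∀ r, HasDerivAt φ (∑ k, ∑ j, PE r (fun x y =>
      D (tk P (bg g) T k) j x * D (tk P (bg g) T k) j y)) r := fun r => Ft_deriv P (bg g) T T r
  have hdc : ∀ r, 0 ≤ r → r ≤ 1 → ∀ c q : ℝ, 0 < c → (∀ s' < T, ∀ t' < T, Cst P s' t' r ≤ q) →
      deriv φ r ≤ 2 * (T : ℝ) ^ 2 * (c * q + 1 / c) := by
    intro r h0 h1 c q hc hq
    rw [(hφd r).deriv]
    refine (deriv_le P (bg g) (bg_contr g hg0 hg1) h0 h1 T T (fun _ _ => c) (fun _ _ => hc)).trans ?_
    have h2 : ∑ s' ∈ Finset.range T, ∑ t' ∈ Finset.range T,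
        (c * Cst P s' t' r + Ft P (bg g) T T r / c)
        ≤ ∑ s' ∈ Finset.range T, ∑ t' ∈ Finset.range T, (c * q + 1 / c) := by
      refine Finset.sum_le_sum fun s' hs' => Finset.sum_le_sum fun t' ht' => ?_
      rw [Finset.mem_range] at hs' ht'
      refine add_le_add (mul_le_mul_of_nonneg_left (hq s' hs' t' ht') hc.le)
        (div_le_div_of_nonneg_right (hφ1 r h0 h1) hc.le)
    rw [Finset.sum_const, Finset.sum_const, Finset.card_range, nsmul_eq_mul, nsmul_eq_mul] at h2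
    linarith
  have hY0 : YY P T 0 ≤ T * θ := by
    unfold YY
    calc ∑ s ∈ Finset.range T, Cst P s s 0 ≤ ∑ _s ∈ Finset.range T, θ :=
          Finset.sum_le_sum fun s hs =>
            Cst_zero_le P θ s s (fun k => hlight s (Finset.mem_range.1 hs) k) hθ
      _ = _ := by rw [Finset.sum_const, Finset.card_range, nsmul_eq_mul]
  have hYr : ∀ r, 0 ≤ r → r ≤ 1 - δ → YY P T r ≤ ε ^ 2 := by
    intro r h0 h1
    have h2 := YY_le P T hT N hN n hn r h0 (by linarith)
    have hB0 : (0 : ℝ) ≤ 700 * N / 2 ^ N * T := by positivity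
    have hY := YY_nonneg P T h0 (by linarith : r ≤ 1)
    have h3 : δ ^ n ≤ (1 - r) ^ n := pow_le_pow_left₀ hδ0.le (by linarith) n
    have h4 : δ ^ n * YY P T r ≤ δ ^ n * ε ^ 2 := by
      calc δ ^ n * YY P T r ≤ δ ^ n * (YY P T r + 700 * N / 2 ^ N * T) :=
            mul_le_mul_of_nonneg_left (by linarith) (by positivity)
        _ ≤ (1 - r) ^ n * (YY P T r + 700 * N / 2 ^ N * T) :=
            mul_le_mul_of_nonneg_right h3 (by positivity)
        _ ≤ _ := by linarith
    exact le_of_mul_le_mul_left h4 (by positivity)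
  have hcont : ∀ s : Set ℝ, ContinuousOn φ s := fun s x _ => (hφd x).continuousAt.continuousWithinAt
  have hdiff : ∀ s : Set ℝ, DifferentiableOn ℝ φ s := fun s x _ =>
    (hφd x).differentiableAt.differentiableWithinAt
  have p1 : φ (1 - δ) - φ 0 ≤ 4 * (T : ℝ) ^ 2 * ε * ((1 - δ) - 0) := by
    refine (convex_Icc (0 : ℝ) (1 - δ)).image_sub_le_mul_sub_of_deriv_le (hcont _) (hdiff _) ?_
      0 (Set.left_mem_Icc.2 (by linarith)) (1 - δ) (Set.right_mem_Icc.2 (by linarith)) (by linarith)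
    intro x hx
    rw [interior_Icc] at hx
    refine (hdc x hx.1.le (by linarith [hx.2]) (1 / ε) (ε ^ 2) (by positivity)
      (fun s' hs' t' ht' => (Cst_le_YY P hx.1.le (by linarith [hx.2]) s' t' T hs' ht').trans
        (hYr x hx.1.le hx.2.le))).trans (le_of_eq ?_)
    field_simp
    ring
  have hcov : Cr (1 - δ) (P.out T g) (P.out T g) = φ (1 - δ) - φ 0 := by
    rw [hφ]
    unfold Ft
    simp only [Finset.univ_unique, Finset.sum_singleton]
    rw [tk_bg P g hg0, PE_zero]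
    unfold Cr
    congr 1
    simp_rw [Ex_mul_left]
    rw [Ex_mul_right]
  rw [hcov]
  have h3 : 4 * (T : ℝ) ^ 2 * ε * ((1 - δ) - 0) ≤ 4 * (T : ℝ) ^ 2 * ε * 1 :=
    mul_le_mul_of_nonneg_left (by linarith) (by positivity)
  linarith

/-- The numbers. -/
lemma numbers (T : ℕ) (hT : 1 ≤ T) (δ S : ℝ) (hδ0 : 1 / (4 * T) ≤ δ) (hδ1 : δ ≤ 1 / 2)
    (hS0 : 0 < S) (hS1 : S ≤ 1) :
    ∃ N n : ℕ, 1 ≤ N ∧ 640 * Real.log (50 * T * N) + 161 ≤ n ∧
      T * (Real.exp (-(7900 * (Real.log (4 * T) * Real.log (1 / δ)) + 3 * Real.log (1 / S))) / (2 * T))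
        + 700 * N / 2 ^ N * T ≤ δ ^ n * (S / (16 * (T : ℝ) ^ 2)) ^ 2 := by
  have hT1 : (1 : ℝ) ≤ T := by exact_mod_cast hT
  have hT0 : (0 : ℝ) < T := by linarith
  have hδp : 0 < δ := lt_of_lt_of_le (by positivity) hδ0
  set Λ : ℝ := Real.log (4 * T) with hΛ
  set L : ℝ := Real.log (1 / δ) with hL
  set s : ℝ := Real.log (1 / S) with hs
  have hs0 : 0 ≤ s := Real.log_nonneg (by rw [le_div_iff₀ hS0]; linarith)
  have l2a := Real.log_two_gt_d9
  have l2b := Real.log_two_lt_d9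
  have hL2 : (0.69 : ℝ) ≤ L := by
    have h1 : Real.log 2 ≤ L := Real.log_le_log (by norm_num) (by rw [le_div_iff₀ hδp]; linarith)
    linarith
  have hΛ2 : (1.386 : ℝ) ≤ Λ := by
    have h1 : Real.log (2 ^ 2) ≤ Λ := Real.log_le_log (by norm_num) (by linarith)
    rw [Real.log_pow] at h1
    push_cast at h1
    linarith
  have hLΛ : L ≤ Λ := Real.log_le_log (by positivity) (by
    rw [div_le_iff₀ hδp]
    rw [div_le_iff₀ (by positivity)] at hδ0
    linarith)
  set A : ℝ := Λ * L with hA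
  have hA1 : 0.95 ≤ A := by nlinarith
  have hLA : 1.386 * L ≤ A := by nlinarith
  have hΛA : 0.69 * Λ ≤ A := by nlinarith
  have hLL : L * L ≤ A := by nlinarith
  set N : ℕ := ⌈12000 * A + 5 * s⌉₊ with hN
  have hN1 : 12000 * A + 5 * s ≤ N := Nat.le_ceil _
  have hN2 : (N : ℝ) ≤ 12002 * A + 5 * s := by
    have h1 : (N : ℝ) < 12000 * A + 5 * s + 1 := Nat.ceil_lt_add_one (by positivity)
    linarith
  have hNr : (1 : ℝ) ≤ N := by linarith
  have hNpos : 1 ≤ N := by exact_mod_cast hNr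
  have hN0 : (0 : ℝ) < N := by linarith
  -- a logarithm bound
  have hlogN : ∀ M : ℝ, 0 < M → Real.log N ≤ Real.log M + N / M - 1 := by
    intro M hM
    have h1 := Real.log_le_sub_one_of_pos (by positivity : 0 < (N : ℝ) / M)
    rw [Real.log_div hN0.ne' hM.ne'] at h1
    linarith
  have hlog50 : Real.log (50 * T * N) = Real.log (50 / 4) + Λ + Real.log N := by
    rw [hΛ, ← Real.log_mul (by norm_num) (by positivity), ← Real.log_mul (by positivity) hN0.ne']
    congr 1
    ring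
  have hl125 : Real.log (50 / 4) ≤ 2.78 := by
    have h1 : Real.log (50 / 4) ≤ Real.log (2 ^ 4) := Real.log_le_log (by norm_num) (by norm_num)
    rw [Real.log_pow] at h1
    push_cast at h1
    linarith
  have hl4096 : Real.log 4096 ≤ 8.32 := by
    rw [show (4096 : ℝ) = 2 ^ 12 by norm_num, Real.log_pow]
    push_cast
    linarith
  set n : ℕ := ⌈640 * Real.log (50 * T * N) + 161⌉₊ with hn
  have hn1 : 640 * Real.log (50 * T * N) + 161 ≤ n := Nat.le_ceil _
  have hlog0 : 0 ≤ Real.log (50 * T * N) := by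
    refine Real.log_nonneg ?_
    nlinarith
  have hn2 : (n : ℝ) ≤ 640 * Real.log (50 * T * N) + 162 := by
    have h1 : (n : ℝ) < 640 * Real.log (50 * T * N) + 161 + 1 := Nat.ceil_lt_add_one (by positivity)
    linarith
  have hL0 : 0 < L := by linarith
  -- `n L`
  have hnL : (n : ℝ) * L ≤ 7880 * A + s := by
    have h1 := hlogN (4096 * L) (by positivity)
    have h2 : Real.log (4096 * L) ≤ 8.32 + (L - 1) := by
      rw [Real.log_mul (by norm_num) hL0.ne']
      have := Real.log_le_sub_one_of_pos hL0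
      linarith
    have h3 : L * Real.log N ≤ 6.32 * L + L * L + N / 4096 := by
      have h4 : Real.log N ≤ 6.32 + L + N / (4096 * L) := by linarith
      have h5 := mul_le_mul_of_nonneg_left h4 hL0.le
      have h6 : L * (6.32 + L + N / (4096 * L)) = 6.32 * L + L * L + N / 4096 := by
        field_simp
      linarith
    have h4 := mul_le_mul_of_nonneg_right hn2 hL0.le
    rw [hlog50] at h4
    have h5 : (640 * (Real.log (50 / 4) + Λ + Real.log N) + 162) * L
        = 640 * (Real.log (50 / 4) * L) + 640 * A + 640 * (L * Real.log N) + 162 * L := by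
      rw [hA]; ring
    have h6 : Real.log (50 / 4) * L ≤ 2.78 * L := mul_le_mul_of_nonneg_right hl125 hL0.le
    linarith
  refine ⟨N, n, hNpos, hn1, ?_⟩
  have hδe : δ = Real.exp (-L) := by
    rw [hL, ← Real.log_inv, one_div, inv_inv, Real.exp_log hδp]
  have hSe : S = Real.exp (-s) := by
    rw [hs, ← Real.log_inv, one_div, inv_inv, Real.exp_log hS0]
  have hTe : (16 * (T : ℝ) ^ 2) = Real.exp (2 * Λ) := by
    rw [two_mul, Real.exp_add, hΛ, Real.exp_log (by positivity)]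
    ring
  have hpow : Real.exp (-(7900 * A + 3 * s)) ≤ δ ^ n * (S / (16 * (T : ℝ) ^ 2)) ^ 2 := by
    have e : δ ^ n * (S / (16 * (T : ℝ) ^ 2)) ^ 2 = Real.exp (-(n * L) - 2 * s - 4 * Λ) := by
      rw [hTe, hδe, hSe, ← Real.exp_nat_mul, ← Real.exp_sub, ← Real.exp_nat_mul, ← Real.exp_add]
      congr 1
      push_cast
      ring
    rw [e]
    refine Real.exp_le_exp.2 ?_
    linarith
  refine le_trans ?_ hpow
  set q : ℝ := Real.exp (-(7900 * A + 3 * s)) with hq
  have h1 : (T : ℝ) * (q / (2 * T)) = q / 2 := by field_simp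
  rw [h1]
  -- second term
  have h2 : 700 * (N : ℝ) / 2 ^ N * T ≤ q / 2 := by
    have h3 : 700 * (N : ℝ) / 2 ^ N * T = (1400 * N * T) / 2 ^ N / 2 := by ring
    rw [h3]
    refine div_le_div_of_nonneg_right ?_ (by norm_num)
    have h4 : (1400 * N * T) / 2 ^ N = Real.exp (Real.log 350 + Λ + Real.log N - N * Real.log 2) := by
      rw [Real.exp_sub, Real.exp_add, Real.exp_add, Real.exp_log hN0, Real.exp_log (by norm_num),
        hΛ, Real.exp_log (by positivity), ← Real.log_pow, Real.exp_log (by positivity)]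
      ring
    rw [h4, hq]
    refine Real.exp_le_exp.2 ?_
    have h5 := hlogN 128 (by norm_num)
    have h6 : Real.log 128 ≤ 4.86 := by
      rw [show (128 : ℝ) = 2 ^ 7 by norm_num, Real.log_pow]
      push_cast
      linarith
    have h7 : Real.log 350 ≤ 6.24 := by
      have h8 : Real.log 350 ≤ Real.log (2 ^ 9) := Real.log_le_log (by norm_num) (by norm_num)
      rw [Real.log_pow] at h8
      push_cast at h8
      linarith
    have h8 : (N : ℝ) * 0.69 ≤ N * Real.log 2 := mul_le_mul_of_nonneg_left (by linarith) hN0.le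
    linarith
  linarith

end Pool.Agent.H703R3.QS
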