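import Pool.Agent.H703R3.QS.PowStatic
import Pool.Agent.H703R3.QS.Stab
import Pool.Agent.H703R2.AC.Osss

/-!
# Higher moments of the query probabilities along random restrictions
-/

set_option autoImplicit false
set_option linter.unusedSectionVars false

namespace Pool.Agent.H703R3.QS

open Finset Pool.Agent.H722R2.AA Pool.Agent.H746R2.AA Pool.Agent.H703R2.AA Pool.Agent.H703R2.AA.Pr
  Pool.Agent.H703R2.AB Pool.Agent.H703R2.AC Pool.Agent.H703R3.QP

section Cube

variable {κ : Type*} [Fintype κ] [DecidableEq κ]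

lemma pow_conv (p b : ℝ) (hp : 0 ≤ p) (hb : |b| ≤ p) (c : ℕ) :
    ((p + b) ^ (c + 2) + (p - b) ^ (c + 2)) / 2
      ≤ p ^ (c + 2) + (2 ^ (c + 1) - 1) * (p ^ c * b ^ 2) ∧
    |((p + b) ^ (c + 2) - (p - b) ^ (c + 2)) / 2| ≤ 2 ^ (c + 1) * (|b| * p ^ (c + 1)) := by
  have hb1 := abs_le.1 hb
  induction c with
  | zero =>
    constructor
    · apply le_of_eq; ring
    · have e : ((p + b) ^ (0 + 2) - (p - b) ^ (0 + 2)) / 2 = 2 * (b * p) := by ring
      rw [e, abs_mul, abs_mul, abs_of_nonneg hp]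
      norm_num
  | succ c ih =>
    obtain ⟨i1, i2⟩ := ih
    set X := (p + b) ^ (c + 2) with hX
    set Y := (p - b) ^ (c + 2) with hY
    have hX0 : 0 ≤ X := pow_nonneg (by linarith) _
    have hY0 : 0 ≤ Y := pow_nonneg (by linarith) _
    have hpc : 0 ≤ p ^ c := pow_nonneg hp c
    have h2c : (1 : ℝ) ≤ 2 ^ (c + 1) := one_le_pow₀ (by norm_num)
    have e1 : (p + b) ^ (c + 1 + 2) = (p + b) * X := by rw [hX]; ring
    have e2 : (p - b) ^ (c + 1 + 2) = (p - b) * Y := by rw [hY]; ring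
    have hbb : |b| * |b| = b ^ 2 := by rw [← sq, sq_abs]
    have hb2 : b ^ 2 ≤ p ^ 2 := by
      rw [← hbb, sq]
      exact mul_le_mul hb hb (abs_nonneg _) hp
    rw [e1, e2]
    constructor
    · have e3 : ((p + b) * X + (p - b) * Y) / 2 = p * ((X + Y) / 2) + b * ((X - Y) / 2) := by ring
      rw [e3]
      have h1 := mul_le_mul_of_nonneg_left i1 hp
      have h2 : b * ((X - Y) / 2) ≤ |b| * (2 ^ (c + 1) * (|b| * p ^ (c + 1))) := by
        refine (le_abs_self _).trans ?_
        rw [abs_mul]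
        exact mul_le_mul_of_nonneg_left i2 (abs_nonneg _)
      have e4 : |b| * (2 ^ (c + 1) * (|b| * p ^ (c + 1))) = 2 ^ (c + 1) * (p ^ (c + 1) * b ^ 2) := by
        rw [← hbb]; ring
      rw [e4] at h2
      have e5 : p * (p ^ (c + 2) + (2 ^ (c + 1) - 1) * (p ^ c * b ^ 2))
          = p ^ (c + 1 + 2) + (2 ^ (c + 1) - 1) * (p ^ (c + 1) * b ^ 2) := by ring
      rw [e5] at h1
      have e6 : (2 : ℝ) ^ (c + 1 + 1) - 1 = (2 ^ (c + 1) - 1) + 2 ^ (c + 1) := by ring
      rw [e6, add_mul]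
      linarith
    · have e3 : ((p + b) * X - (p - b) * Y) / 2 = p * ((X - Y) / 2) + b * ((X + Y) / 2) := by ring
      rw [e3]
      refine (abs_add_le _ _).trans ?_
      rw [abs_mul, abs_mul, abs_of_nonneg hp, abs_of_nonneg (by positivity : 0 ≤ (X + Y) / 2)]
      have h1 := mul_le_mul_of_nonneg_left i2 hp
      have h3 : (X + Y) / 2 ≤ 2 ^ (c + 1) * p ^ (c + 2) := by
        refine i1.trans ?_
        have h4 : (2 ^ (c + 1) - 1) * (p ^ c * b ^ 2) ≤ (2 ^ (c + 1) - 1) * (p ^ c * p ^ 2) :=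
          mul_le_mul_of_nonneg_left (mul_le_mul_of_nonneg_left hb2 hpc) (by linarith)
        have e7 : p ^ c * p ^ 2 = p ^ (c + 2) := by ring
        rw [e7] at h4
        linarith
      have h2 := mul_le_mul_of_nonneg_left h3 (abs_nonneg b)
      have e8 : (2 : ℝ) ^ (c + 1 + 1) * (|b| * p ^ (c + 1 + 1))
          = p * (2 ^ (c + 1) * (|b| * p ^ (c + 1))) + |b| * (2 ^ (c + 1) * p ^ (c + 2)) := by ring
      rw [e8]
      linarith

/-- The weight without a coordinate. -/
noncomputable def wE (i : κ) (r : ℝ) (L : Finset κ) : ℝ :=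
  ∏ j ∈ Finset.univ.erase i, (if j ∈ L then r else 1 - r)

lemma wE_insert (i : κ) (r : ℝ) (L : Finset κ) : wE i r (insert i L) = wE i r L := by
  unfold wE
  refine Finset.prod_congr rfl fun j hj => ?_
  have hj' := Finset.ne_of_mem_erase hj
  simp [Finset.mem_insert, hj']

lemma wE_mul (i : κ) (r : ℝ) (L : Finset κ) (hi : i ∉ L) : (1 - r) * wE i r L = wL r L := by
  unfold wE wL
  rw [← Finset.mul_prod_erase Finset.univ _ (Finset.mem_univ i), if_neg hi]

lemma wL_deriv (L : Finset κ) (r : ℝ) :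
    HasDerivAt (fun r => wL r L) (∑ i, wE i r L * (if i ∈ L then 1 else -1)) r := by
  have := HasDerivAt.fun_finsetProd (u := (Finset.univ : Finset κ)) (x := r)
    (f := fun k r => if k ∈ L then r else 1 - r)
    (f' := fun k => if k ∈ L then (1 : ℝ) else -1) (fun k _ => by
      by_cases hk : k ∈ L
      · simp only [hk, if_true]; exact hasDerivAt_id' r
      · simp only [hk, if_false]
        have := (hasDerivAt_id' r).const_sub 1
        simpa using this)
  simpa [wL, wE, smul_eq_mul] using this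

/-- The derivative of an average over random sets. -/
noncomputable def dU (u : Finset κ → ℝ) (r : ℝ) : ℝ :=
  ∑ i, ∑ L, if i ∈ L then 0 else wE i r L * (u (insert i L) - u L)

lemma avg_deriv (u : Finset κ → ℝ) (r : ℝ) :
    HasDerivAt (fun r => ∑ L, wL r L * u L) (dU u r) r := by
  have h : HasDerivAt (fun r => ∑ L, wL r L * u L)
      (∑ L, (∑ i, wE i r L * (if i ∈ L then 1 else -1)) * u L) r :=
    HasDerivAt.fun_sum fun L _ => (wL_deriv L r).mul_const (u L)
  refine h.congr_deriv ?_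
  unfold dU
  simp_rw [Finset.sum_mul]
  rw [Finset.sum_comm]
  refine Finset.sum_congr rfl fun i _ => ?_
  rw [sum_split i (fun L => wE i r L * (if i ∈ L then 1 else -1) * u L), ← Finset.sum_add_distrib]
  refine Finset.sum_congr rfl fun L _ => ?_
  by_cases hi : i ∈ L
  · simp [hi]
  · simp only [hi, if_false, Finset.mem_insert_self, if_true]
    rw [wE_insert]
    ring

lemma dU_mul (u : Finset κ → ℝ) (r : ℝ) :
    (1 - r) * dU u r = ∑ i, ∑ L, if i ∈ L then 0 else wL r L * (u (insert i L) - u L) := by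
  unfold dU
  rw [Finset.mul_sum]
  refine Finset.sum_congr rfl fun i _ => ?_
  rw [Finset.mul_sum]
  refine Finset.sum_congr rfl fun L _ => ?_
  by_cases hi : i ∈ L
  · simp [hi]
  · simp only [hi, if_false]
    rw [← wE_mul i r L hi]
    ring

lemma Ex_D_eq_G1 (H : (κ → ℤˣ) → ℝ) (i : κ) : Ex (fun x => D H i x) = G1 H i := by
  unfold G1
  have h := Ex_sg_mul i (fun _ => 1) H (fun _ _ => rfl)
  simp only [mul_one, one_mul] at h
  rw [h]

lemma Ex_fr (H : (κ → ℤˣ) → ℝ) (i : κ) (s : ℤˣ) :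
    Ex (fr i s H) = Ex H + ((s : ℤ) : ℝ) * G1 H i := by
  have h1 := Ex_split i H
  have h2 : Ex (fr i 1 H) - Ex (fr i (-1) H) = 2 * G1 H i := by
    rw [← Ex_sub, ← Ex_D_eq_G1, ← Ex_mul_left]
    refine Ex_congr fun x => ?_
    unfold fr D
    ring
  rcases Int.units_eq_one_or s with h | h <;> rw [h] <;> push_cast <;> linarith

/-- The restricted function. -/
def rs (F : (κ → ℤˣ) → ℝ) (L : Finset κ) (z x : κ → ℤˣ) : ℝ := F (L.piecewise z x)

lemma piecewise_insert (L : Finset κ) (i : κ) (hi : i ∉ L) (z x : κ → ℤˣ) :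
    (insert i L).piecewise z x = L.piecewise z (Function.update x i (z i)) := by
  funext j
  by_cases hj : j = i
  · subst hj
    simp [hi]
  · by_cases hjL : j ∈ L <;> simp [hj, hjL]

lemma piecewise_update (L : Finset κ) (i : κ) (hi : i ∉ L) (z x : κ → ℤˣ) (s : ℤˣ) :
    L.piecewise (Function.update z i s) x = L.piecewise z x := by
  funext j
  by_cases hjL : j ∈ L
  · have : j ≠ i := fun h => hi (h ▸ hjL)
    simp [hjL, this]
  · simp [hjL]

lemma Ex_rs_insert (F : (κ → ℤˣ) → ℝ) (L : Finset κ) (i : κ) (hi : i ∉ L) (z : κ → ℤˣ) :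
    Ex (rs F (insert i L) z) = Ex (rs F L z) + sg z i * G1 (rs F L z) i := by
  have h := Ex_fr (rs F L z) i (z i)
  change _ = Ex (rs F L z) + (((z i : ℤˣ) : ℤ) : ℝ) * G1 (rs F L z) i
  rw [← h]
  refine Ex_congr fun x => ?_
  unfold rs fr
  rw [piecewise_insert L i hi]

lemma rs_update (F : (κ → ℤˣ) → ℝ) (L : Finset κ) (i : κ) (hi : i ∉ L) (z : κ → ℤˣ) (s : ℤˣ) :
    rs F L (Function.update z i s) = rs F L z := by
  funext x
  unfold rs
  rw [piecewise_update L i hi]

/-- The growth of a moment. -/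
lemma moment_step (F : (κ → ℤˣ) → ℝ) (h0 : ∀ x, 0 ≤ F x) (b : ℕ) (L : Finset κ) (i : κ)
    (hi : i ∉ L) :
    Ex (fun z => Ex (rs F (insert i L) z) ^ (b + 2)) - Ex (fun z => Ex (rs F L z) ^ (b + 2))
      ≤ 2 ^ (b + 1) * Ex (fun z => Ex (rs F L z) ^ b * G1 (rs F L z) i ^ 2) := by
  have e1 : Ex (fun z => Ex (rs F (insert i L) z) ^ (b + 2))
      = Ex (fun z => ((Ex (rs F L z) + G1 (rs F L z) i) ^ (b + 2)
        + (Ex (rs F L z) - G1 (rs F L z) i) ^ (b + 2)) / 2) := by
    rw [Ex_split i (fun z => Ex (rs F (insert i L) z) ^ (b + 2)), ← Ex_add]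
    rw [div_eq_mul_inv, ← Ex_mul_right]
    refine Ex_congr fun z => ?_
    unfold fr
    beta_reduce
    rw [Ex_rs_insert F L i hi, Ex_rs_insert F L i hi, rs_update F L i hi, rs_update F L i hi]
    unfold sg
    rw [Function.update_self, Function.update_self]
    push_cast
    ring
  rw [e1, ← Ex_sub, ← Ex_mul_left]
  refine Ex_mono fun z => ?_
  have h1 := (pow_conv (Ex (rs F L z)) (G1 (rs F L z) i)
    (Ex_nonneg fun x => h0 _) (abs_G1_le (rs F L z) (fun x => h0 _) i) b).1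
  have h2 : 0 ≤ Ex (rs F L z) ^ b * G1 (rs F L z) i ^ 2 :=
    mul_nonneg (pow_nonneg (Ex_nonneg fun x => h0 _) _) (sq_nonneg _)
  linarith

end Cube

end Pool.Agent.H703R3.QS
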