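import Pool.Agent.H703R3.QS.Bessel

/-!
# The noise stable part of a light quantum algorithm: nearly linear bound
-/

set_option autoImplicit false
set_option linter.unusedSectionVars false

namespace Pool.Agent.H703R3.QS

open Finset Pool.Agent.H722R2.AA Pool.Agent.H746R2.AA Pool.Agent.H703R2.AA Pool.Agent.H703R2.AA.Pr
  Pool.Agent.H703R2.AB Pool.Agent.H703R2.AC Pool.Agent.H703R3.QP

variable {κ ι W : Type*} [Fintype κ] [DecidableEq κ] [Fintype ι] [DecidableEq ι] [Fintype W]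
variable (P : Pr κ ι W)

lemma pq_le_mu (b T : ℕ) (ε : ℝ) (hε : 0 < ε) (L : Finset κ) (z : κ → ℤˣ) (s : ℕ) (hs : s < T)
    (j : κ) : pq P L z s j ≤ ε + Yb P L z b T / ε ^ (b + 1) := by
  have hY := Yb_nonneg P L z b T
  have hp := pq_nonneg P L z s j
  rcases le_or_gt (pq P L z s j) ε with h | h
  · have : 0 ≤ Yb P L z b T / ε ^ (b + 1) := by positivity
    linarith
  · have h1 : pq P L z s j ^ (b + 2) ≤ Yb P L z b T := by
      unfold Yb
      refine (Finset.single_le_sum (f := fun k => pq P L z s k ^ (b + 2))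
        (fun k _ => pow_nonneg (pq_nonneg P L z s k) _) (Finset.mem_univ j)).trans ?_
      exact Finset.single_le_sum (f := fun t => ∑ k, pq P L z t k ^ (b + 2))
        (fun t _ => Finset.sum_nonneg fun k _ => pow_nonneg (pq_nonneg P L z t k) _)
        (Finset.mem_range.2 hs)
    have h2 : pq P L z s j ≤ Yb P L z b T / ε ^ (b + 1) := by
      rw [le_div_iff₀ (by positivity)]
      refine le_trans ?_ h1
      rw [pow_succ _ (b + 1), mul_comm]
      exact mul_le_mul_of_nonneg_right (pow_le_pow_left₀ hε.le h.le _) hp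
    linarith

lemma phi_deriv_le (b T : ℕ) (g : List W → ℝ) (hg0 : ∀ a, 0 ≤ g a) (hg1 : ∀ a, g a ≤ 1)
    (ε : ℝ) (hε : 0 < ε) {r : ℝ} (h0 : 0 ≤ r) (h1 : r ≤ 1) :
    (1 - r) * ∑ j, PE r (fun x y => D (P.out T g) j x * D (P.out T g) j y)
      ≤ 4 * (T : ℝ) ^ 2 * (ε + MY P b T r / ε ^ (b + 1)) := by
  have e1 : (1 - r) * ∑ j, PE r (fun x y => D (P.out T g) j x * D (P.out T g) j y)
      ≤ EL r (fun L z => ∑ j, G1 (rs (P.out T g) L z) j ^ 2) := by
    rw [EL_sum, Finset.mul_sum]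
    exact Finset.sum_le_sum fun j _ => PE_D_le h0 h1 j (P.out T g)
  refine e1.trans ?_
  have e2 : 4 * (T : ℝ) ^ 2 * (ε + MY P b T r / ε ^ (b + 1))
      = 4 * (T : ℝ) ^ 2 / ε ^ (b + 1) * MY P b T r + 4 * (T : ℝ) ^ 2 * ε := by
    field_simp
    ring
  rw [e2]
  unfold MY
  rw [← EL_affine]
  refine EL_mono h0 h1 fun L z => ?_
  have hY := Yb_nonneg P L z b T
  refine (bessel P T g hg0 hg1 L z (ε + Yb P L z b T / ε ^ (b + 1)) (by positivity)
    (fun s hs j => pq_le_mu P b T ε hε L z s hs j)).trans (le_of_eq ?_)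
  field_simp
  ring

/-- The light lemma with a nearly linear bound. -/
theorem light_p (b T : ℕ) (hT : 1 ≤ T) (N : ℕ) (hN : 1 ≤ N) (n : ℕ)
    (hn : 2 ^ (b + 1) * (640 * Real.log (50 * T * N) + 161) ≤ n) (δ ε θ : ℝ) (hδ0 : 0 < δ)
    (hδ1 : δ ≤ 1) (hε : 0 < ε) (hθ : 0 ≤ θ) (hlight : ∀ t < T, ∀ k, mq P t k ≤ θ)
    (hsmall : T * θ ^ (b + 1) + 700 * N / 2 ^ N * T ≤ δ ^ n * ε ^ (b + 2))
    (g : List W → ℝ) (hg0 : ∀ a, 0 ≤ g a) (hg1 : ∀ a, g a ≤ 1) :
    Cr (1 - δ) (P.out T g) (P.out T g) ≤ 8 * (T : ℝ) ^ 2 * ε / δ := by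
  set f := P.out T g with hf
  set φ : ℝ → ℝ := fun r => PE r (fun x y => f x * f y) with hφ
  have hφd : ∀ r, HasDerivAt φ (∑ j, PE r (fun x y => D f j x * D f j y)) r := fun r =>
    hasDerivAt_PE f f r
  have hYr : ∀ r, 0 ≤ r → r ≤ 1 - δ → MY P b T r ≤ ε ^ (b + 2) := by
    intro r h0 h1
    have h2 := MY_le P b T hT N hN n hn r h0 (by linarith)
    have hB0 : (0 : ℝ) ≤ 700 * N / 2 ^ N * T := by positivity
    have hY := MY_nonneg P b T h0 (by linarith : r ≤ 1)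
    have hY0 := MY_zero_le P b T θ hθ hlight
    have h3 : δ ^ n ≤ (1 - r) ^ n := pow_le_pow_left₀ hδ0.le (by linarith) n
    have h4 : δ ^ n * MY P b T r ≤ δ ^ n * ε ^ (b + 2) := by
      calc δ ^ n * MY P b T r ≤ δ ^ n * (MY P b T r + 700 * N / 2 ^ N * T) :=
            mul_le_mul_of_nonneg_left (by linarith) (by positivity)
        _ ≤ (1 - r) ^ n * (MY P b T r + 700 * N / 2 ^ N * T) :=
            mul_le_mul_of_nonneg_right h3 (by positivity)
        _ ≤ _ := by linarith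
    exact le_of_mul_le_mul_left h4 (by positivity)
  have p1 : φ (1 - δ) - φ 0 ≤ 8 * (T : ℝ) ^ 2 * ε / δ * ((1 - δ) - 0) := by
    refine (convex_Icc (0 : ℝ) (1 - δ)).image_sub_le_mul_sub_of_deriv_le
      (fun x _ => (hφd x).continuousAt.continuousWithinAt)
      (fun x _ => (hφd x).differentiableAt.differentiableWithinAt) ?_
      0 (Set.left_mem_Icc.2 (by linarith)) (1 - δ) (Set.right_mem_Icc.2 (by linarith)) (by linarith)
    intro x hx
    rw [interior_Icc] at hx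
    rw [(hφd x).deriv]
    have hx1 : x ≤ 1 := by linarith [hx.2]
    have h2 := phi_deriv_le P b T g hg0 hg1 ε hε hx.1.le hx1
    rw [← hf] at h2
    have h3 := hYr x hx.1.le hx.2.le
    have h4 : MY P b T x / ε ^ (b + 1) ≤ ε := by
      rw [div_le_iff₀ (by positivity)]
      refine h3.trans (le_of_eq ?_)
      ring
    have h5 : 4 * (T : ℝ) ^ 2 * (ε + MY P b T x / ε ^ (b + 1)) ≤ 8 * (T : ℝ) ^ 2 * ε := by
      have h6 := mul_le_mul_of_nonneg_left h4 (by positivity : 0 ≤ 4 * (T : ℝ) ^ 2)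
      linarith
    set Q := ∑ j, PE x (fun x y => D f j x * D f j y) with hQ
    have hQ0 : 0 ≤ Q := Finset.sum_nonneg fun j _ => PE_self_nonneg' hx.1.le (D f j)
    rw [le_div_iff₀ hδ0, mul_comm]
    have h7 : δ * Q ≤ (1 - x) * Q := mul_le_mul_of_nonneg_right (by linarith [hx.2]) hQ0
    linarith
  have hcov : Cr (1 - δ) f f = φ (1 - δ) - φ 0 := by
    rw [hφ]
    beta_reduce
    rw [PE_zero]
    unfold Cr
    congr 1
    simp_rw [Ex_mul_left]
    rw [Ex_mul_right]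
  rw [hcov]
  have h3 : 8 * (T : ℝ) ^ 2 * ε / δ * ((1 - δ) - 0) ≤ 8 * (T : ℝ) ^ 2 * ε / δ * 1 :=
    mul_le_mul_of_nonneg_left (by linarith) (by positivity)
  linarith

end Pool.Agent.H703R3.QS
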