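import Pool.Agent.H703R3.QS.PowFlow

/-!
# The flow of the moments
-/

set_option autoImplicit false
set_option linter.unusedSectionVars false

namespace Pool.Agent.H703R3.QS

open Finset Pool.Agent.H722R2.AA Pool.Agent.H746R2.AA Pool.Agent.H703R2.AA Pool.Agent.H703R2.AA.Pr
  Pool.Agent.H703R2.AB Pool.Agent.H703R2.AC Pool.Agent.H703R3.QP

variable {κ ι W : Type*} [Fintype κ] [DecidableEq κ] [Fintype ι] [DecidableEq ι] [Fintype W]
variable (P : Pr κ ι W)

/-- The average of the moments over random restrictions. -/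
noncomputable def MY (b T : ℕ) (r : ℝ) : ℝ := EL r (fun L z => Yb P L z b T)

lemma MY_nonneg (b T : ℕ) {r : ℝ} (h0 : 0 ≤ r) (h1 : r ≤ 1) : 0 ≤ MY P b T r :=
  EL_nonneg h0 h1 fun L z => Yb_nonneg P L z b T

/-- The average over the revealed coordinates. -/
noncomputable def uM (b T : ℕ) (L : Finset κ) : ℝ := Ex (fun z => Yb P L z b T)

lemma uM_eq (b T : ℕ) (L : Finset κ) : uM P b T L
    = ∑ t ∈ Finset.range T, ∑ k, Ex (fun z => Ex (rs (pk P t k) L z) ^ (b + 2)) := by
  unfold uM Yb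
  rw [Ex_sum]
  refine Finset.sum_congr rfl fun t _ => ?_
  rw [Ex_sum]
  rfl

lemma uM_step (b T : ℕ) (L : Finset κ) (i : κ) (hi : i ∉ L) :
    uM P b T (insert i L) - uM P b T L
      ≤ 2 ^ (b + 1) * Ex (fun z => ∑ t ∈ Finset.range T, ∑ k,
          pq P L z t k ^ b * G1 (qf P L z t k) i ^ 2) := by
  rw [uM_eq, uM_eq, ← Finset.sum_sub_distrib, Ex_sum, Finset.mul_sum]
  refine Finset.sum_le_sum fun t _ => ?_
  rw [← Finset.sum_sub_distrib, Ex_sum, Finset.mul_sum]
  refine Finset.sum_le_sum fun k _ => ?_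
  exact moment_step (pk P t k) (pk_nonneg P t k) b L i hi

/-- The differential inequality for the moments. -/
theorem MY_flow (b N : ℕ) (hN : 1 ≤ N) (T : ℕ) (hT : 1 ≤ T) {r : ℝ} (h0 : 0 ≤ r) (h1 : r ≤ 1) :
    (1 - r) * dU (uM P b T) r
      ≤ 2 ^ (b + 1) * ((640 * Real.log (50 * T * N) + 161) * MY P b T r
        + 700 * N / 2 ^ N * T) := by
  rw [dU_mul]
  have e1 : ∑ i, ∑ L : Finset κ, (if i ∈ L then 0 else wL r L * (uM P b T (insert i L) - uM P b T L))
      ≤ ∑ i, ∑ L : Finset κ, wL r L * (2 ^ (b + 1) * Ex (fun z => ∑ t ∈ Finset.range T, ∑ k,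
          pq P L z t k ^ b * G1 (qf P L z t k) i ^ 2)) := by
    refine Finset.sum_le_sum fun i _ => Finset.sum_le_sum fun L _ => ?_
    have hw := wL_nonneg h0 h1 L
    split_ifs with hi
    · refine mul_nonneg hw (mul_nonneg (by positivity) (Ex_nonneg fun z => ?_))
      exact Finset.sum_nonneg fun t _ => Finset.sum_nonneg fun k _ =>
        mul_nonneg (pow_nonneg (pq_nonneg P L z t k) _) (sq_nonneg _)
    · exact mul_le_mul_of_nonneg_left (uM_step P b T L i hi) hw
  refine e1.trans ?_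
  rw [Finset.sum_comm]
  have e2 : ∀ L : Finset κ, ∑ i, wL r L * (2 ^ (b + 1) * Ex (fun z => ∑ t ∈ Finset.range T, ∑ k,
          pq P L z t k ^ b * G1 (qf P L z t k) i ^ 2))
      = wL r L * (2 ^ (b + 1) * Ex (fun z => ∑ t ∈ Finset.range T, ∑ k,
          pq P L z t k ^ b * ∑ i, G1 (qf P L z t k) i ^ 2)) := by
    intro L
    rw [← Finset.mul_sum, ← Finset.mul_sum, ← Ex_sum]
    congr 2
    refine Ex_congr fun z => ?_
    rw [Finset.sum_comm]
    refine Finset.sum_congr rfl fun t _ => ?_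
    rw [Finset.sum_comm]
    refine Finset.sum_congr rfl fun k _ => ?_
    rw [Finset.mul_sum]
  rw [Finset.sum_congr rfl fun L _ => e2 L]
  have e3 : ∑ L : Finset κ, wL r L * (2 ^ (b + 1) * Ex (fun z => ∑ t ∈ Finset.range T, ∑ k,
          pq P L z t k ^ b * ∑ i, G1 (qf P L z t k) i ^ 2))
      = 2 ^ (b + 1) * EL r (fun L z => ∑ t ∈ Finset.range T, ∑ k,
          pq P L z t k ^ b * ∑ i, G1 (qf P L z t k) i ^ 2) := by
    unfold EL
    rw [Finset.mul_sum]
    exact Finset.sum_congr rfl fun L _ => by ring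
  rw [e3]
  refine mul_le_mul_of_nonneg_left ?_ (by positivity)
  unfold MY
  rw [← EL_affine]
  exact EL_mono h0 h1 fun L z => static_bound' P L z b N hN T hT

lemma MY_deriv (b T : ℕ) (r : ℝ) : HasDerivAt (MY P b T) (dU (uM P b T) r) r :=
  avg_deriv (uM P b T) r

/-- Integration of the differential inequality. -/
lemma MY_le (b T : ℕ) (hT : 1 ≤ T) (N : ℕ) (hN : 1 ≤ N) (n : ℕ)
    (hn : 2 ^ (b + 1) * (640 * Real.log (50 * T * N) + 161) ≤ n) (r : ℝ) (h0 : 0 ≤ r) (h1 : r ≤ 1) :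
    (1 - r) ^ n * (MY P b T r + 700 * N / 2 ^ N * T) ≤ MY P b T 0 + 700 * N / 2 ^ N * T := by
  set B : ℝ := 700 * N / 2 ^ N * T with hB
  have hB0 : 0 ≤ B := by positivity
  have hT1 : (1 : ℝ) ≤ T := by exact_mod_cast hT
  have hN1 : (1 : ℝ) ≤ N := by exact_mod_cast hN
  have hlog : 0 ≤ Real.log (50 * T * N) := Real.log_nonneg (by nlinarith)
  have h2b : (1 : ℝ) ≤ 2 ^ (b + 1) := one_le_pow₀ (by norm_num)
  have h2n : (2 : ℝ) ^ (b + 1) ≤ n := by
    refine le_trans ?_ hn
    exact le_mul_of_one_le_right (by positivity) (by linarith)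
  have hn1 : (1 : ℝ) ≤ n := by linarith
  have hn0 : 1 ≤ n := by exact_mod_cast hn1
  set u : ℝ → ℝ := fun r => (1 - r) ^ n * (MY P b T r + B) with hu
  have hud : ∀ r, HasDerivAt u (n * (1 - r) ^ (n - 1) * (-1) * (MY P b T r + B)
      + (1 - r) ^ n * dU (uM P b T) r) r := by
    intro r
    have d1 : HasDerivAt (fun r : ℝ => (1 - r) ^ n) (n * (1 - r) ^ (n - 1) * (-1)) r := by
      have := ((hasDerivAt_id' r).const_sub 1).fun_pow n
      simpa using this
    exact d1.mul ((MY_deriv P b T r).add_const B)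
  have hanti : AntitoneOn u (Set.Icc 0 1) := by
    refine antitoneOn_of_deriv_nonpos (convex_Icc 0 1)
      (fun x _ => (hud x).continuousAt.continuousWithinAt)
      (fun x _ => (hud x).differentiableAt.differentiableWithinAt) ?_
    intro x hx
    rw [interior_Icc] at hx
    rw [(hud x).deriv]
    have h2 := MY_flow P b N hN T hT hx.1.le hx.2.le
    rw [← hB] at h2
    have hY := MY_nonneg P b T hx.1.le hx.2.le
    have h3 : (1 - x) * dU (uM P b T) x ≤ n * (MY P b T x + B) := by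
      have h4 := mul_le_mul_of_nonneg_right hn hY
      have h5 := mul_le_mul_of_nonneg_right h2n hB0
      rw [mul_add] at h2
      rw [mul_assoc] at h4
      linarith
    have hx1 : 0 ≤ (1 - x) ^ (n - 1) := pow_nonneg (by linarith [hx.2]) _
    have h6 := mul_le_mul_of_nonneg_left h3 hx1
    have e : (1 - x) ^ n = (1 - x) ^ (n - 1) * (1 - x) := by
      rw [← pow_succ, Nat.sub_add_cancel hn0]
    rw [e]
    linarith
  have h2 := hanti (Set.left_mem_Icc.2 zero_le_one) (Set.mem_Icc.2 ⟨h0, h1⟩) h0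
  simp only [hu] at h2
  simpa using h2

lemma wL_zero (L : Finset κ) : wL 0 L = if L = ∅ then 1 else 0 := by
  unfold wL
  split_ifs with h
  · subst h
    simp
  · obtain ⟨j, hj⟩ := Finset.nonempty_iff_ne_empty.2 h
    exact Finset.prod_eq_zero (Finset.mem_univ j) (if_pos hj)

/-- The initial moment of a light algorithm. -/
lemma MY_zero_le (b T : ℕ) (θ : ℝ) (hθ : 0 ≤ θ) (hl : ∀ t < T, ∀ k, mq P t k ≤ θ) :
    MY P b T 0 ≤ T * θ ^ (b + 1) := by
  unfold MY EL
  simp_rw [wL_zero, ite_mul, one_mul, zero_mul]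
  rw [Finset.sum_ite_eq' Finset.univ (∅ : Finset κ), if_pos (Finset.mem_univ _)]
  refine Ex_le_const fun z => ?_
  unfold Yb
  have e : ∀ t k, pq P ∅ z t k = mq P t k := by
    intro t k
    rw [← Ex_qf]
    unfold mq
    refine Ex_congr fun x => ?_
    rw [qf_eq, Finset.piecewise_empty]
  simp_rw [e]
  calc ∑ t ∈ Finset.range T, ∑ k, mq P t k ^ (b + 2)
      ≤ ∑ t ∈ Finset.range T, ∑ k, θ ^ (b + 1) * mq P t k := by
        refine Finset.sum_le_sum fun t ht => Finset.sum_le_sum fun k _ => ?_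
        have h0 := mq_nonneg P t k
        have h1 := hl t (Finset.mem_range.1 ht) k
        rw [pow_succ _ (b + 1)]
        exact mul_le_mul_of_nonneg_right (pow_le_pow_left₀ h0 h1 _) h0
    _ ≤ ∑ _t ∈ Finset.range T, θ ^ (b + 1) := by
        refine Finset.sum_le_sum fun t _ => ?_
        rw [← Finset.mul_sum]
        exact mul_le_of_le_one_right (by positivity) (sum_mq P t)
    _ = _ := by rw [Finset.sum_const, Finset.card_range, nsmul_eq_mul]

end Pool.Agent.H703R3.QS
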