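import Pool.Agent.H703R3.QP.Static

/-!
# Higher moments of the query probabilities: the static inequality
-/

set_option autoImplicit false
set_option linter.unusedSectionVars false

namespace Pool.Agent.H703R3.QS

open Finset Pool.Agent.H722R2.AA Pool.Agent.H746R2.AA Pool.Agent.H703R2.AA Pool.Agent.H703R2.AA.Pr
  Pool.Agent.H703R2.AB Pool.Agent.H703R2.AC Pool.Agent.H703R3.QP

variable {κ ι W : Type*} [Fintype κ] [DecidableEq κ] [Fintype ι] [DecidableEq ι] [Fintype W]
variable (P : Pr κ ι W) (L : Finset κ) (z : κ → ℤˣ)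

/-- The moment of order `b + 2`. -/
noncomputable def Yb (b T : ℕ) : ℝ := ∑ t ∈ Finset.range T, ∑ k, pq P L z t k ^ (b + 2)

lemma Yb_nonneg (b T : ℕ) : 0 ≤ Yb P L z b T :=
  Finset.sum_nonneg fun t _ => Finset.sum_nonneg fun k _ => pow_nonneg (pq_nonneg P L z t k) _

lemma Yb_mono (b s T : ℕ) (h : s ≤ T) : Yb P L z b s ≤ Yb P L z b T :=
  Finset.sum_le_sum_of_subset_of_nonneg (Finset.range_mono h)
    fun t _ _ => Finset.sum_nonneg fun k _ => pow_nonneg (pq_nonneg P L z t k) _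

/-- The killed mass. -/
lemma Ex_ch_succ' (b : ℕ) (m : ℝ) (hm : 0 < m) (t : ℕ) :
    Ex (fun x => pn (t + 1) (ch P L z m (t + 1)) x)
      ≤ Ex (fun x => pn t (ch P L z m t) x) + (4 / m) ^ (b + 1) * ∑ k, pq P L z t k ^ (b + 2) := by
  classical
  have e1 : Ex (fun x => pn (t + 1) (ch P L z m (t + 1)) x)
      = ∑ k, Ex (fun x => qn P t k (if dead P L z m t k then ps P L z else ch P L z m t) x) := by
    rw [← Ex_sum]
    exact Ex_congr fun x => pn_ch_succ P L z m t x
  have e2 : Ex (fun x => pn t (ch P L z m t) x)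
      = ∑ k, Ex (fun x => qn P t k (ch P L z m t) x) := by
    rw [← Ex_sum]
    exact Ex_congr fun x => (sum_qn P t _ x).symm
  rw [e1, e2, Fintype.sum_option, Fintype.sum_option, Finset.mul_sum, add_assoc,
    ← Finset.sum_add_distrib]
  refine add_le_add ?_ (Finset.sum_le_sum fun k _ => ?_)
  · have : ¬ dead P L z m t none := fun h => h.1 rfl
    rw [if_neg this]
  · have hp0 := pq_nonneg P L z t k
    have hm4 : 0 ≤ (4 / m) ^ (b + 1) * pq P L z t k ^ (b + 2) := by positivity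
    split_ifs with h
    · change pq P L z t k ≤ _
      have h1 := h.2
      have h2 : Ex (fun x => qn P t (some k) (kp P L z m t) x)
          ≤ 2 * pq P L z t k + 2 * Ex (fun x => qn P t (some k) (ch P L z m t) x) := by
        unfold pq
        rw [← Ex_mul_left, ← Ex_mul_left, ← Ex_add]
        refine Ex_mono fun x => ?_
        refine le_trans (le_of_eq ?_) (qn_sub_le P t (some k) (ps P L z) (ch P L z m t) x)
        refine qn_congr P t _ _ _ x fun a _ => ?_
        unfold ch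
        abel
      rcases le_or_gt (pq P L z t k) (m / 4) with h3 | h3
      · have : pq P L z t k ≤ Ex (fun x => qn P t (some k) (ch P L z m t) x) := by linarith
        linarith
      · have h4 : pq P L z t k ≤ (4 / m) ^ (b + 1) * pq P L z t k ^ (b + 2) := by
          have h6 : 1 ≤ 4 / m * pq P L z t k := by
            rw [div_mul_eq_mul_div, le_div_iff₀ hm]; linarith
          have h7 : 1 ≤ (4 / m * pq P L z t k) ^ (b + 1) := one_le_pow₀ h6
          calc pq P L z t k = 1 * pq P L z t k := (one_mul _).symm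
            _ ≤ (4 / m * pq P L z t k) ^ (b + 1) * pq P L z t k :=
                mul_le_mul_of_nonneg_right h7 hp0
            _ = _ := by rw [mul_pow]; ring
        have h5 : 0 ≤ Ex (fun x => qn P t (some k) (ch P L z m t) x) :=
          Ex_nonneg fun x => qn_nonneg P t _ _ x
        linarith
    · linarith

/-- The killed mass is controlled by the moments. -/
theorem Ex_ch_le' (b : ℕ) (m : ℝ) (hm : 0 < m) (t : ℕ) :
    Ex (fun x => pn t (ch P L z m t) x) ≤ (4 / m) ^ (b + 1) * Yb P L z b t := by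
  unfold Yb
  induction t with
  | zero =>
    simp only [Finset.range_zero, Finset.sum_empty, mul_zero]
    refine (Ex_le_const (c := 0) fun x => ?_)
    unfold pn ch kp ps
    simp only [S, A, sub_self]
    exact nsq_zero.le
  | succ t ih =>
    rw [Finset.sum_range_succ, mul_add]
    have := Ex_ch_succ' P L z b m hm t
    linarith

lemma sum_Ex_qn_ch' (b : ℕ) (m : ℝ) (hm : 0 < m) (t : ℕ) :
    ∑ k : κ, Ex (fun x => qn P t (some k) (ch P L z m t) x) ≤ (4 / m) ^ (b + 1) * Yb P L z b t := by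
  refine le_trans ?_ (Ex_ch_le' P L z b m hm t)
  rw [← Ex_sum]
  refine Ex_mono fun x => ?_
  rw [← sum_qn P, Fintype.sum_option]
  have := qn_nonneg P t none (ch P L z m t) x
  linarith

/-- The weighted defect mass over the levels. -/
noncomputable def Zb (b : ℕ) (Θ : ℝ) (N t : ℕ) (k : κ) : ℝ :=
  ∑ i ∈ Finset.range (N + 1), ((1 / 2 : ℝ) ^ i) ^ (b + 1) * be P L z (Θ * (1 / 2) ^ i) t k

lemma Zb_nonneg (b : ℕ) (Θ : ℝ) (N t : ℕ) (k : κ) : 0 ≤ Zb P L z b Θ N t k :=
  Finset.sum_nonneg fun _ _ => mul_nonneg (by positivity) (be_nonneg P L z _ t k)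

lemma sum_Zb_le (b : ℕ) (Θ : ℝ) (hΘ : 4 ≤ Θ) (N t T : ℕ) (ht : t ≤ T) :
    ∑ k, Zb P L z b Θ N t k ≤ 4 * (N + 1) / Θ * Yb P L z b T := by
  have hΘ0 : 0 < Θ := by linarith
  have hY := Yb_nonneg P L z b T
  unfold Zb
  rw [Finset.sum_comm]
  have h1 : ∀ i ∈ Finset.range (N + 1),
      ∑ k, ((1 / 2 : ℝ) ^ i) ^ (b + 1) * be P L z (Θ * (1 / 2) ^ i) t k
      ≤ 4 / Θ * Yb P L z b T := by
    intro i _
    rw [← Finset.mul_sum]
    have hm : 0 < Θ * (1 / 2 : ℝ) ^ i := by positivity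
    have h2 := sum_Ex_qn_ch' P L z b (Θ * (1 / 2) ^ i) hm t
    have h3 : Yb P L z b t ≤ Yb P L z b T := Yb_mono P L z b t T ht
    have h4 : ∑ k, be P L z (Θ * (1 / 2) ^ i) t k
        ≤ (4 / (Θ * (1 / 2 : ℝ) ^ i)) ^ (b + 1) * Yb P L z b T :=
      h2.trans (mul_le_mul_of_nonneg_left h3 (by positivity))
    have h5 := mul_le_mul_of_nonneg_left h4 (by positivity : 0 ≤ ((1 / 2 : ℝ) ^ i) ^ (b + 1))
    refine h5.trans ?_
    have e : ((1 / 2 : ℝ) ^ i) ^ (b + 1) * ((4 / (Θ * (1 / 2 : ℝ) ^ i)) ^ (b + 1) * Yb P L z b T)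
        = (4 / Θ) ^ (b + 1) * Yb P L z b T := by
      rw [← mul_assoc, ← mul_pow]
      congr 2
      field_simp
    rw [e]
    refine mul_le_mul_of_nonneg_right ?_ hY
    have h6 : 4 / Θ ≤ 1 := by rw [div_le_one hΘ0]; exact hΘ
    rw [pow_succ]
    exact mul_le_of_le_one_left (by positivity) (pow_le_one₀ (by positivity) h6)
  refine (Finset.sum_le_sum h1).trans (le_of_eq ?_)
  rw [Finset.sum_const, Finset.card_range, nsmul_eq_mul]
  push_cast
  ring

/-- The bound for one position. -/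
lemma point_bound' (b N : ℕ) (hN : 1 ≤ N) (t T : ℕ) (hT : t < T) (Θ A : ℝ) (hΘ : 0 < Θ)
    (hA : 4 ≤ A) (hΘA : 16 * (T : ℝ) ^ 2 * Θ ≤ A) (k : κ) :
    pq P L z t k ^ b * ∑ j, G1 (qf P L z t k) j ^ 2
      ≤ 160 * (Real.log A + 1) * pq P L z t k ^ (b + 2)
        + 40 * (3 * N + 5 + 4 * Real.log A) * Zb P L z b Θ N t k
        + (640 + 23 * ((N : ℝ) + 1)) / 2 ^ N * pq P L z t k := by
  set p := pq P L z t k with hp
  have hp0 : 0 ≤ p := pq_nonneg P L z t k
  have hp1 : p ≤ 1 := pq_le_one P L z t k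
  have hF0 : ∀ x, 0 ≤ qf P L z t k x := qf_nonneg P L z t k
  have hF1 : ∀ x, qf P L z t k x ≤ 1 := qf_le_one P L z t k
  have hEF : Ex (qf P L z t k) = p := rfl
  have hlogA : 0 ≤ Real.log A := Real.log_nonneg (by linarith)
  have hZ0 := Zb_nonneg P L z b Θ N t k
  have hN1 : (1 : ℝ) ≤ N := by exact_mod_cast hN
  have h2N : (0 : ℝ) < 2 ^ N := by positivity
  have hpb0 : 0 ≤ p ^ b := pow_nonneg hp0 b
  have hpb1 : p ^ b ≤ 1 := pow_le_one₀ hp0 hp1
  have hlog2N : Real.log ((2 : ℝ) ^ N) ≤ N := by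
    rw [Real.log_pow]
    have : Real.log 2 ≤ 1 := by
      have := Real.log_two_lt_d9
      linarith
    have h0 : (0 : ℝ) ≤ N := by positivity
    nlinarith
  have hT1 : 0 ≤ 160 * (Real.log A + 1) * p ^ (b + 2) := by positivity
  have hT2 : 0 ≤ 40 * (3 * N + 5 + 4 * Real.log A) * Zb P L z b Θ N t k := by positivity
  rcases hp0.eq_or_lt with h0 | hpos
  · have : ∀ j, G1 (qf P L z t k) j ^ 2 = 0 := fun j => by
      rw [G1_zero_of _ hF0 (by rw [hEF]; exact h0.symm) j]; norm_num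
    rw [Finset.sum_eq_zero fun j _ => this j]
    have : 0 ≤ (640 + 23 * ((N : ℝ) + 1)) / 2 ^ N * p := by positivity
    linarith
  set δ : ℝ := 1 / 2 ^ N with hδ
  have hδ0 : 0 < δ := by positivity
  have hG0 : 0 ≤ ∑ j, G1 (qf P L z t k) j ^ 2 := Finset.sum_nonneg fun _ _ => sq_nonneg _
  rcases lt_or_ge p δ with hlt | hge
  · -- small probabilities
    have h0 : p ^ b * ∑ j, G1 (qf P L z t k) j ^ 2 ≤ ∑ j, G1 (qf P L z t k) j ^ 2 :=
      mul_le_of_le_one_left hG0 hpb1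
    refine h0.trans ?_
    have h1 := triv_bound (qf P L z t k) hF0 hF1 (by rw [hEF]; exact hpos) (2 ^ N) h2N
    rw [hEF] at h1
    rw [sum_G1_sq _ (by rw [hEF]; exact hpos), hEF]
    set B := ∑ j, tb (qf P L z t k) j ^ 2 with hB
    have h2 : p * Real.log (2 ^ N) ≤ δ * N :=
      mul_le_mul hlt.le hlog2N (Real.log_nonneg (one_le_pow₀ (by norm_num))) hδ0.le
    have h3 : 18 * p * B ≤ δ * (N + 1) := by
      have : 1 / (2 : ℝ) ^ N = δ := rfl
      rw [this] at h1
      linarith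
    have h4 := mul_le_mul_of_nonneg_left h3 hp0
    have h5 : (640 + 23 * ((N : ℝ) + 1)) / 2 ^ N * p = (640 + 23 * ((N : ℝ) + 1)) * (δ * p) := by
      rw [hδ]; ring
    rw [h5]
    have h6 : 0 ≤ δ * p := by positivity
    nlinarith
  · -- the main case
    obtain ⟨i, hi1, hi2⟩ := exists_nat_pow_near_of_lt_one hpos hp1 (by norm_num : (0 : ℝ) < 1 / 2)
      (by norm_num)
    have hiN : i < N + 1 := by
      by_contra hcon
      push Not at hcon
      have h1 : (1 / 2 : ℝ) ^ i ≤ (1 / 2) ^ (N + 1) :=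
        pow_le_pow_of_le_one (by norm_num) (by norm_num) hcon
      have h2 : (1 / 2 : ℝ) ^ (N + 1) = δ / 2 := by
        rw [hδ, pow_succ, one_div_pow]; ring
      linarith
    have h2 : (1 / 2 : ℝ) ^ i ≤ 2 * p := by
      rw [pow_succ] at hi1
      linarith
    set m := Θ * (1 / 2 : ℝ) ^ i with hm
    have hm0 : 0 < m := by positivity
    have hmA : 8 * (T : ℝ) ^ 2 * m ≤ A * p := by
      have h3 : m ≤ Θ * (2 * p) := mul_le_mul_of_nonneg_left h2 hΘ.le
      have h4 := mul_le_mul_of_nonneg_left h3 (by positivity : 0 ≤ 8 * (T : ℝ) ^ 2)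
      have h5 := mul_le_mul_of_nonneg_right hΘA hp0
      linarith
    have hΛ : 18 * ∑ j, tb (qf P L z t k) j ^ 2 ≤ (N : ℝ) + 1 := by
      have h1 := triv_bound (qf P L z t k) hF0 hF1 (by rw [hEF]; exact hpos) (2 ^ N) h2N
      rw [hEF] at h1
      have h3 : 1 / (2 : ℝ) ^ N ≤ p := hge
      have h4 : p * Real.log (2 ^ N) ≤ p * N := mul_le_mul_of_nonneg_left hlog2N hp0
      have h5 : p * (18 * ∑ j, tb (qf P L z t k) j ^ 2) ≤ p * ((N : ℝ) + 1) := by linarith
      exact le_of_mul_le_mul_left h5 hpos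
    have h6 := level_one P L z m hm0.le t T hT k hpos A (2 ^ N) ((N : ℝ) + 1) hA h2N hmA hΛ
    rw [← hp] at h6
    refine (mul_le_mul_of_nonneg_left h6 hpb0).trans ?_
    have hβ0 := be_nonneg P L z m t k
    have h7 : p ^ b * (p * be P L z m t k) ≤ Zb P L z b Θ N t k := by
      have h8 : p ^ (b + 1) ≤ ((1 / 2 : ℝ) ^ i) ^ (b + 1) := pow_le_pow_left₀ hp0 hi2 _
      have h9 : p ^ b * (p * be P L z m t k) = p ^ (b + 1) * be P L z m t k := by ring
      rw [h9]
      refine (mul_le_mul_of_nonneg_right h8 hβ0).trans ?_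
      unfold Zb
      exact Finset.single_le_sum
        (f := fun i => ((1 / 2 : ℝ) ^ i) ^ (b + 1) * be P L z (Θ * (1 / 2) ^ i) t k)
        (fun i _ => mul_nonneg (by positivity) (be_nonneg P L z _ t k)) (Finset.mem_range.2 hiN)
    have h8 : (N : ℝ) + 1 + 4 * (Real.log A + 1) + 2 * Real.log (2 ^ N)
        ≤ 3 * N + 5 + 4 * Real.log A := by linarith
    have hpβ : 0 ≤ p ^ b * (p * be P L z m t k) := by positivity
    have h9 : p ^ b * (40 * (p * be P L z m t k)
          * ((N : ℝ) + 1 + 4 * (Real.log A + 1) + 2 * Real.log (2 ^ N)))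
        ≤ 40 * (3 * N + 5 + 4 * Real.log A) * Zb P L z b Θ N t k := by
      calc p ^ b * (40 * (p * be P L z m t k)
          * ((N : ℝ) + 1 + 4 * (Real.log A + 1) + 2 * Real.log (2 ^ N)))
          = 40 * (p ^ b * (p * be P L z m t k))
            * ((N : ℝ) + 1 + 4 * (Real.log A + 1) + 2 * Real.log (2 ^ N)) := by ring
        _ ≤ 40 * (p ^ b * (p * be P L z m t k)) * (3 * N + 5 + 4 * Real.log A) :=
            mul_le_mul_of_nonneg_left h8 (by positivity)
        _ ≤ 40 * Zb P L z b Θ N t k * (3 * N + 5 + 4 * Real.log A) :=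
            mul_le_mul_of_nonneg_right (mul_le_mul_of_nonneg_left h7 (by norm_num)) (by positivity)
        _ = _ := by ring
    have h10 : p ^ b * (640 * p / 2 ^ N) ≤ (640 + 23 * ((N : ℝ) + 1)) / 2 ^ N * p := by
      have h11 : p ^ b * (640 * p / 2 ^ N) ≤ 640 * p / 2 ^ N :=
        mul_le_of_le_one_left (by positivity) hpb1
      refine h11.trans ?_
      rw [div_mul_eq_mul_div]
      refine div_le_div_of_nonneg_right ?_ h2N.le
      nlinarith
    have h11 : p ^ b * (160 * p ^ 2 * (Real.log A + 1)) = 160 * (Real.log A + 1) * p ^ (b + 2) := by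
      ring
    rw [mul_add, mul_add, h11]
    linarith

/-- The total bound with parameters. -/
lemma total_bound' (b N : ℕ) (hN : 1 ≤ N) (T : ℕ) (Θ A : ℝ) (hΘ : 4 ≤ Θ) (hA : 4 ≤ A)
    (hΘA : 16 * (T : ℝ) ^ 2 * Θ ≤ A) :
    ∑ t ∈ Finset.range T, ∑ k, pq P L z t k ^ b * ∑ j, G1 (qf P L z t k) j ^ 2
      ≤ (160 * (Real.log A + 1) + 160 * (3 * N + 5 + 4 * Real.log A) * T * (N + 1) / Θ)
          * Yb P L z b T
        + (640 + 23 * ((N : ℝ) + 1)) / 2 ^ N * T := by
  have hΘ0 : 0 < Θ := by linarith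
  have hlogA : 0 ≤ Real.log A := Real.log_nonneg (by linarith)
  have h1 : ∀ t ∈ Finset.range T, ∑ k, pq P L z t k ^ b * ∑ j, G1 (qf P L z t k) j ^ 2
      ≤ 160 * (Real.log A + 1) * (∑ k, pq P L z t k ^ (b + 2))
        + 40 * (3 * N + 5 + 4 * Real.log A) * (4 * (N + 1) / Θ * Yb P L z b T)
        + (640 + 23 * ((N : ℝ) + 1)) / 2 ^ N := by
    intro t ht
    rw [Finset.mem_range] at ht
    refine (Finset.sum_le_sum fun k _ => point_bound' P L z b N hN t T ht Θ A hΘ0 hA hΘA k).trans ?_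
    rw [Finset.sum_add_distrib, Finset.sum_add_distrib, ← Finset.mul_sum, ← Finset.mul_sum,
      ← Finset.mul_sum]
    have h2 := sum_Zb_le P L z b Θ hΘ N t T ht.le
    have h3 := sum_pq_le P L z t
    have h4 : (640 + 23 * ((N : ℝ) + 1)) / 2 ^ N * ∑ k, pq P L z t k
        ≤ (640 + 23 * ((N : ℝ) + 1)) / 2 ^ N * 1 :=
      mul_le_mul_of_nonneg_left h3 (by positivity)
    have h5 := mul_le_mul_of_nonneg_left h2
      (by positivity : 0 ≤ 40 * (3 * (N : ℝ) + 5 + 4 * Real.log A))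
    linarith
  refine (Finset.sum_le_sum h1).trans (le_of_eq ?_)
  rw [Finset.sum_add_distrib, Finset.sum_add_distrib, ← Finset.mul_sum, Finset.sum_const,
    Finset.sum_const, Finset.card_range, nsmul_eq_mul, nsmul_eq_mul]
  unfold Yb
  field_simp
  ring

/-- The static inequality. -/
theorem static_bound' (b N : ℕ) (hN : 1 ≤ N) (T : ℕ) (hT : 1 ≤ T) :
    ∑ t ∈ Finset.range T, ∑ k, pq P L z t k ^ b * ∑ j, G1 (qf P L z t k) j ^ 2
      ≤ (640 * Real.log (50 * T * N) + 161) * Yb P L z b T + 700 * N / 2 ^ N * T := by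
  have hN1 : (1 : ℝ) ≤ N := by exact_mod_cast hN
  have hT1 : (1 : ℝ) ≤ T := by exact_mod_cast hT
  set Z : ℝ := 50 * T * N with hZ
  have hTN : (1 : ℝ) ≤ T * N := one_le_mul_of_one_le_of_one_le hT1 hN1
  have hZ50 : 50 ≤ Z := by rw [hZ]; linarith
  have hZ0 : 0 < Z := by linarith
  have hNZ : (N : ℝ) ≤ Z := by rw [hZ]; nlinarith
  have hTZ : (T : ℝ) ≤ Z := by rw [hZ]; nlinarith
  set A : ℝ := Z ^ 4 with hA
  have hA4 : 4 ≤ A := by
    have : (50 : ℝ) ^ 4 ≤ Z ^ 4 := pow_le_pow_left₀ (by norm_num) hZ50 4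
    linarith
  have hlogA : Real.log A = 4 * Real.log Z := by
    rw [hA, Real.log_pow]; norm_num
  have hlogZ : Real.log Z ≤ Z := (Real.log_le_sub_one_of_pos hZ0).trans (by linarith)
  have hT2 : 0 < 16 * (T : ℝ) ^ 2 := by positivity
  have hY := Yb_nonneg P L z b T
  have hΘ4 : 4 ≤ A / (16 * (T : ℝ) ^ 2) := by
    rw [le_div_iff₀ hT2]
    have h1 : (T : ℝ) ^ 2 ≤ Z ^ 2 := pow_le_pow_left₀ (by linarith) hTZ 2
    have h2 : (50 : ℝ) ^ 2 ≤ Z ^ 2 := pow_le_pow_left₀ (by norm_num) hZ50 2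
    have h3 : A = Z ^ 2 * Z ^ 2 := by rw [hA]; ring
    rw [h3]
    nlinarith
  have h := total_bound' P L z b N hN T (A / (16 * (T : ℝ) ^ 2)) A hΘ4 hA4
    (by rw [mul_div_cancel₀ _ hT2.ne'])
  refine h.trans ?_
  have h1 : 160 * (3 * N + 5 + 4 * Real.log A) * T * (N + 1) / (A / (16 * (T : ℝ) ^ 2)) ≤ 1 := by
    rw [div_le_one (by positivity), le_div_iff₀ hT2]
    have h2 : 3 * (N : ℝ) + 5 + 4 * Real.log A ≤ 24 * Z := by
      rw [hlogA]; linarith
    have h3 : (N : ℝ) + 1 ≤ 2 * N := by linarith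
    calc 160 * (3 * N + 5 + 4 * Real.log A) * T * (N + 1) * (16 * (T : ℝ) ^ 2)
        ≤ 160 * (24 * Z) * T * (2 * N) * (16 * (T : ℝ) ^ 2) := by
          refine mul_le_mul_of_nonneg_right ?_ (by positivity)
          refine mul_le_mul ?_ h3 (by positivity) (by positivity)
          refine mul_le_mul_of_nonneg_right ?_ (by positivity)
          linarith
      _ = 122880 * ((T : ℝ) ^ 3 * N) * Z := by ring
      _ ≤ 125000 * ((T : ℝ) ^ 3 * N ^ 3) * Z := by
          refine mul_le_mul_of_nonneg_right ?_ hZ0.le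
          have h4 : (N : ℝ) ≤ N ^ 3 := by
            have := pow_le_pow_right₀ hN1 (show 1 ≤ 3 by norm_num)
            simpa using this
          have h5 := mul_le_mul_of_nonneg_left h4 (by positivity : 0 ≤ (T : ℝ) ^ 3)
          have h6 : 0 ≤ (T : ℝ) ^ 3 * N := by positivity
          linarith
      _ = A := by rw [hA, hZ]; ring
  have h2 : (160 * (Real.log A + 1)
      + 160 * (3 * N + 5 + 4 * Real.log A) * T * (N + 1) / (A / (16 * (T : ℝ) ^ 2)))
      ≤ 640 * Real.log Z + 161 := by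
    have e : 160 * (Real.log A + 1) = 640 * Real.log Z + 160 := by rw [hlogA]; ring
    linarith
  have h3 : (640 + 23 * ((N : ℝ) + 1)) / 2 ^ N * T ≤ 700 * N / 2 ^ N * T := by
    refine mul_le_mul_of_nonneg_right (div_le_div_of_nonneg_right ?_ (by positivity)) (by positivity)
    linarith
  exact add_le_add (mul_le_mul_of_nonneg_right h2 hY) h3

end Pool.Agent.H703R3.QS
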